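import Pool.Agent.H67.Q.Defs

/-!
# Two lemmas on coarsely injective sequences of integers
-/

set_option autoImplicit false

namespace Pool.Agent.QIT

open Pool.Agent.QIS

/-- discrete intermediate value, increasing form -/
theorem oneD_ivt_up (f : ℕ → ℤ) (J i : ℤ) (hJ : 0 ≤ J) :
    ∀ n : ℕ, (∀ k : ℕ, k < n → |f (k + 1) - f k| ≤ J) → f 0 ≤ i → i ≤ f n →
      ∃ k : ℕ, k ≤ n ∧ |i - f k| ≤ J := by
  intro n
  induction n with
  | zero =>
    intro _ h0 h1
    refine ⟨0, le_refl _, ?_⟩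
    have : i - f 0 = 0 := by omega
    rw [this, abs_zero]
    exact hJ
  | succ n ih =>
    intro hj h0 h1
    by_cases h : i ≤ f n
    · obtain ⟨k, hk, hk'⟩ := ih (fun k hk => hj k (by omega)) h0 h
      exact ⟨k, by omega, hk'⟩
    · refine ⟨n, by omega, ?_⟩
      have h2 := abs_le.mp (hj n (by omega))
      rw [abs_le]
      constructor
      · omega
      · omega

/-- discrete intermediate value, decreasing form -/
theorem oneD_ivt_down (f : ℕ → ℤ) (J i : ℤ) (hJ : 0 ≤ J) (n : ℕ)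
    (hj : ∀ k : ℕ, k < n → |f (k + 1) - f k| ≤ J) (h0 : i ≤ f 0) (h1 : f n ≤ i) :
    ∃ k : ℕ, k ≤ n ∧ |i - f k| ≤ J := by
  obtain ⟨k, hk, hk'⟩ := oneD_ivt_up (fun k => -f k) J (-i) hJ n (by
    intro k hk
    have h2 := abs_le.mp (hj k hk)
    rw [abs_le]
    constructor
    · omega
    · omega) (by omega) (by omega)
  refine ⟨k, hk, ?_⟩
  have h2 := abs_le.mp hk'
  rw [abs_le]
  constructor
  · omega
  · omega

/-- a sequence with jumps at most `J` moves at most `J * k` in `k` steps -/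
theorem oneD_lip (f : ℕ → ℤ) (J : ℤ) (n : ℕ) (hj : ∀ k : ℕ, k < n → |f (k + 1) - f k| ≤ J) :
    ∀ k : ℕ, k ≤ n → |f k - f 0| ≤ J * k := by
  intro k
  induction k with
  | zero => intro _; simp
  | succ k ih =>
    intro hk
    have h1 := abs_le.mp (ih (by omega))
    have h2 := abs_le.mp (hj k (by omega))
    have h3 : J * ((k + 1 : ℕ) : ℤ) = J * k + J := by push_cast; ring
    rw [h3, abs_le]
    constructor
    · omega
    · omega

/-- one half of the argument: a sequence that drops below the level `f 0 - M` with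
`M > J * (P + 2)` passes within `J` of this level, and only after more than `P` steps -/
theorem oneD_pass (f : ℕ → ℤ) (J M : ℤ) (P B : ℕ) (hJ : 0 ≤ J) (hM : J * (P + 2) < M)
    (hj : ∀ k : ℕ, k < B → |f (k + 1) - f k| ≤ J) (hB : f B ≤ f 0 - M) :
    ∃ k : ℕ, k ≤ B ∧ |f 0 - M - f k| ≤ J ∧ P < k := by
  have hM0 : 0 ≤ M := by
    have : 0 ≤ J * ((P : ℤ) + 2) := mul_nonneg hJ (by positivity)
    omega
  obtain ⟨k, hk, hk'⟩ := oneD_ivt_down f J (f 0 - M) hJ B hj (by omega) hB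
  refine ⟨k, hk, hk', ?_⟩
  by_contra hcon
  have hcon' : k ≤ P := by omega
  have h1 := abs_le.mp (oneD_lip f J B hj k hk)
  have h2 := abs_le.mp hk'
  have h3 : J * (k : ℤ) ≤ J * (P : ℤ) := by
    apply mul_le_mul_of_nonneg_left _ hJ
    exact_mod_cast hcon'
  have h4 : J * ((P : ℤ) + 2) = J * P + 2 * J := by ring
  omega

/-- the case of a level above the centre value -/
theorem oneD_up (J : ℕ) (N : ℕ → ℕ) (X B : ℕ)
    (hB : N (X + (J * (N (2 * J) + 2) + 1)) < B) (v : ℤ → ℤ) (s : ℤ)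
    (hj : ∀ t : ℤ, |t - s| ≤ B → |t + 1 - s| ≤ B → |v (t + 1) - v t| ≤ J)
    (hp : ∀ (t t' : ℤ) (Y : ℕ), |t - s| ≤ B → |t' - s| ≤ B → |v t - v t'| ≤ Y → |t - t'| ≤ N Y)
    (i : ℤ) (hi : v s ≤ i) (hi' : i ≤ v s + X) : ∃ t : ℤ, |t - s| ≤ B ∧ |i - v t| ≤ J := by
  have hJ : (0 : ℤ) ≤ J := by positivity
  -- the two branches
  have hj1 : ∀ k : ℕ, k < B → |v (s + ((k + 1 : ℕ) : ℤ)) - v (s + (k : ℤ))| ≤ J := by
    intro k hk
    have h := hj (s + k) (by rw [abs_le]; constructor <;> omega)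
      (by rw [abs_le]; constructor <;> omega)
    have e : s + ((k + 1 : ℕ) : ℤ) = s + (k : ℤ) + 1 := by push_cast; ring
    rw [e]
    exact h
  have hj2 : ∀ k : ℕ, k < B → |v (s - ((k + 1 : ℕ) : ℤ)) - v (s - (k : ℤ))| ≤ J := by
    intro k hk
    have h := hj (s - (k + 1 : ℕ)) (by rw [abs_le]; constructor <;> omega)
      (by rw [abs_le]; constructor <;> omega)
    have e : s - ((k + 1 : ℕ) : ℤ) + 1 = s - (k : ℤ) := by push_cast; ring
    rw [e] at h
    rw [abs_sub_comm]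
    exact h
  by_cases hu1 : i ≤ v (s + (B : ℤ))
  · obtain ⟨k, hk, hk'⟩ := oneD_ivt_up (fun k => v (s + (k : ℤ))) J i hJ B hj1
      (by simpa using hi) hu1
    exact ⟨s + k, by rw [abs_le]; constructor <;> omega, hk'⟩
  by_cases hu2 : i ≤ v (s - (B : ℤ))
  · obtain ⟨k, hk, hk'⟩ := oneD_ivt_up (fun k => v (s - (k : ℤ))) J i hJ B hj2
      (by simpa using hi) hu2
    exact ⟨s - k, by rw [abs_le]; constructor <;> omega, hk'⟩
  exfalso
  set M : ℕ := J * (N (2 * J) + 2) + 1 with hMdef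
  -- the ends are far from the centre value
  have hd1 : v (s + (B : ℤ)) ≤ v s - M := by
    by_contra hcon
    have h := hp (s + B) s (X + M) (by rw [abs_le]; constructor <;> omega)
      (by rw [abs_le]; constructor <;> omega)
      (by rw [abs_le]; push_cast; constructor <;> omega)
    have h2 := abs_le.mp h
    omega
  have hd2 : v (s - (B : ℤ)) ≤ v s - M := by
    by_contra hcon
    have h := hp s (s - B) (X + M) (by rw [abs_le]; constructor <;> omega)
      (by rw [abs_le]; constructor <;> omega)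
      (by rw [abs_le]; push_cast; constructor <;> omega)
    have h2 := abs_le.mp h
    omega
  have hMbig : (J : ℤ) * ((N (2 * J) : ℕ) + 2) < (M : ℤ) := by
    rw [hMdef]; push_cast; omega
  obtain ⟨k1, hk1, hk1', hk1''⟩ := oneD_pass (fun k => v (s + (k : ℤ))) J M (N (2 * J)) B hJ
    hMbig hj1 (by simpa using hd1)
  obtain ⟨k2, hk2, hk2', hk2''⟩ := oneD_pass (fun k => v (s - (k : ℤ))) J M (N (2 * J)) B hJ
    hMbig hj2 (by simpa using hd2)
  have e1 := abs_le.mp hk1'
  have e2 := abs_le.mp hk2'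
  simp only [Nat.cast_zero, add_zero, sub_zero] at e1 e2
  have h := hp (s + k1) (s - k2) (2 * J) (by rw [abs_le]; constructor <;> omega)
    (by rw [abs_le]; constructor <;> omega)
    (by rw [abs_le]; push_cast; constructor <;> omega)
  have h2 := abs_le.mp h
  omega

/-- a map of an interval to `ℤ` with bounded jumps `J` and properness function `N` comes within `J`
of every point near the value at the centre -/
theorem oneD_cover (J : ℕ) (N : ℕ → ℕ) (X : ℕ) : ∃ B : ℕ, ∀ (v : ℤ → ℤ) (s : ℤ),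
    (∀ t : ℤ, |t - s| ≤ B → |t + 1 - s| ≤ B → |v (t + 1) - v t| ≤ J) →
    (∀ (t t' : ℤ) (Y : ℕ), |t - s| ≤ B → |t' - s| ≤ B → |v t - v t'| ≤ Y → |t - t'| ≤ N Y) →
    ∀ i : ℤ, |i - v s| ≤ X → ∃ t : ℤ, |t - s| ≤ B ∧ |i - v t| ≤ J := by
  refine ⟨N (X + (J * (N (2 * J) + 2) + 1)) + 1, ?_⟩
  intro v s hj hp i hi
  have hi2 := abs_le.mp hi
  rcases le_total (v s) i with h | h
  · exact oneD_up J N X _ (Nat.lt_succ_self _) v s hj hp i h (by omega)
  · obtain ⟨t, ht, ht'⟩ := oneD_up J N X _ (Nat.lt_succ_self _) (fun t => -v t) s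
      (by
        intro t h1 h2
        have h3 := hj t h1 h2
        have e : -v (t + 1) - -v t = -(v (t + 1) - v t) := by ring
        rw [e, abs_neg]
        exact h3)
      (by
        intro t t' Y h1 h2 h3
        have e : -v t - -v t' = -(v t - v t') := by ring
        rw [e, abs_neg] at h3
        exact hp t t' Y h1 h2 h3)
      (-i) (by omega) (by omega)
    refine ⟨t, ht, ?_⟩
    have e : -i - -v t = -(i - v t) := by ring
    rw [e, abs_neg] at ht'
    exact ht'

/-- a half-infinite version: if `v` is the identity on a long initial interval, then it stays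
nonnegative and comes within `J` of every nonnegative integer -/
theorem oneD_right (J : ℕ) (N : ℕ → ℕ) : ∃ n : ℕ, ∀ v : ℤ → ℤ,
    (∀ s : ℤ, 0 ≤ s → |v (s + 1) - v s| ≤ J) →
    (∀ (s s' : ℤ) (Y : ℕ), 0 ≤ s → 0 ≤ s' → |v s - v s'| ≤ Y → |s - s'| ≤ N Y) →
    (∀ s : ℤ, 0 ≤ s → s ≤ n → v s = s) →
    (∀ s : ℤ, 0 ≤ s → 0 ≤ v s) ∧ ∀ t : ℤ, 0 ≤ t → ∃ s : ℤ, 0 ≤ s ∧ |v s - t| ≤ J := by
  refine ⟨N J + 1, ?_⟩
  intro v hj hp hid
  have hJ : (0 : ℤ) ≤ J := by positivity
  have hv0 : v 0 = 0 := hid 0 (le_refl _) (by positivity)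
  have hpos : ∀ s : ℤ, 0 ≤ s → 0 ≤ v s := by
    intro s hs
    by_contra hcon
    have hsn : ((N J + 1 : ℕ) : ℤ) < s := by
      by_contra hc
      have := hid s hs (by omega)
      omega
    obtain ⟨m, hm⟩ : ∃ m : ℕ, s = ((N J + 1 : ℕ) : ℤ) + m :=
      ⟨(s - ((N J + 1 : ℕ) : ℤ)).toNat, by omega⟩
    obtain ⟨k, hk, hk'⟩ := oneD_ivt_down (fun k => v (((N J + 1 : ℕ) : ℤ) + (k : ℤ))) J 0 hJ m
      (by
        intro k hk
        have h := hj (((N J + 1 : ℕ) : ℤ) + (k : ℤ)) (by positivity)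
        have e : ((N J + 1 : ℕ) : ℤ) + ((k + 1 : ℕ) : ℤ) = ((N J + 1 : ℕ) : ℤ) + (k : ℤ) + 1 := by
          push_cast; ring
        rw [e]
        exact h)
      (by
        have h := hid ((N J + 1 : ℕ) : ℤ) (by positivity) (le_refl _)
        simp only [Nat.cast_zero, add_zero]
        rw [h]
        positivity)
      (by
        rw [← hm]
        omega)
    have h := hp 0 (((N J + 1 : ℕ) : ℤ) + (k : ℤ)) J (le_refl _) (by positivity)
      (by rw [hv0]; exact hk')
    have h2 := abs_le.mp h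
    push_cast at h2
    omega
  refine ⟨hpos, ?_⟩
  intro t ht
  obtain ⟨y, hy⟩ : ∃ y : ℕ, t = y := ⟨t.toNat, by omega⟩
  have hbig : t ≤ v ((N y + 1 : ℕ) : ℤ) := by
    by_contra hcon
    have h0 := hpos ((N y + 1 : ℕ) : ℤ) (by positivity)
    have h := hp ((N y + 1 : ℕ) : ℤ) 0 y (by positivity) (le_refl _)
      (by rw [hv0, abs_le]; constructor <;> omega)
    have h2 := abs_le.mp h
    push_cast at h2
    omega
  obtain ⟨k, hk, hk'⟩ := oneD_ivt_up (fun k => v (k : ℤ)) J t hJ (N y + 1)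
    (by
      intro k hk
      have h := hj (k : ℤ) (by positivity)
      push_cast
      exact h)
    (by simp only [Nat.cast_zero]; omega) hbig
  refine ⟨k, by positivity, ?_⟩
  rw [abs_sub_comm]
  exact hk'

end Pool.Agent.QIT
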