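import Pool.Agent.H67.W4.Path
import Pool.Agent.H67.W4.NearC

/-!
# The sides of a line that follows the edge group
-/

set_option autoImplicit false

namespace Pool.Agent.QIT

open Pool.Agent.QIS

namespace Sp

variable {G : Type} [Group G] (D : Sp G)

/-- points of `C` translated: distance to a translate -/
private theorem agr_dist (x y : G) : wdist D.S x (x * y) = wdist D.S 1 y := by
  have := wdist_mul_left (S := D.S) x 1 y
  rwa [mul_one] at this

/-- near the centre the sides of `w` are those of `C` -/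
private theorem agr_base (K : ℕ) : ∃ e : ℕ, ∀ (w : QW D.S D.S K) (x : G) (σ : Bool),
    wdist D.S (w.f x) x ≤ K → x ∉ nbhd D.S e D.C → (x ∈ D.Zb w σ ↔ x ∈ D.ZC σ) := by
  obtain ⟨r₀, h₀⟩ := D.exists_crossG
  refine ⟨K * K + K + K + r₀, fun w x σ hx hd => ?_⟩
  have e1 : wdist D.S x (w.f' x) ≤ K * K + K + K := by
    have a1 := w.h2 x
    have a2 := w.hf'.1 (w.f x) x
    have a3 : K * wdist D.S (w.f x) x ≤ K * K := Nat.mul_le_mul_left _ hx
    have a4 := wdist_triangle D.gS x (w.f' (w.f x)) (w.f' x)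
    rw [wdist_comm D.gS] at a1
    omega
  have e2 : D.A (w.f' x) ↔ D.A x := by
    by_contra hn
    exact hd (nbhd_mono (by omega) _ (h₀ x (w.f' x) (fun h => hn h.symm)))
  cases σ
  · exact not_congr e2
  · exact e2

private theorem agr_one (K T ρ : ℕ) : ∃ d : ℕ, ∀ (z : G) (σ : Bool), z ∈ D.ZC σ →
    z ∉ nbhd D.S d D.C → ∃ B n : ℕ, ∀ w : QW D.S D.S K, D.Cl w n K → ∀ a b : ℤ,
      a < -(B : ℤ) → (B : ℤ) < b → (∀ s, a < s → s < b → D.Near w T s) →
      ∀ s, a + B < s → s < b - B →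
      D.c ^ s * z ∈ D.Zb w σ ∧ D.c ^ s * z ∉ nbhd D.S ρ (D.L w) := by
  obtain ⟨T₃, hT₃⟩ := D.near_line K T
  obtain ⟨c₁, hc₁⟩ := D.exists_cr (S' := D.S) D.gS K
  obtain ⟨ρ', hρ'⟩ := D.exists_path (T₃ + (c₁ * 1 + c₁))
  obtain ⟨e, he⟩ := D.agr_base K
  refine ⟨ρ' + e + (ρ + T₃), fun z σ hz hd => ?_⟩
  have hdeep : ∀ R, R ≤ ρ' + e + (ρ + T₃) → ∀ s : ℤ, D.c ^ s * z ∉ nbhd D.S R D.C := by
    intro R hR s hcon
    rw [D.mem_nbhd_C_mul (D.zpow_mem s)] at hcon
    exact hd (nbhd_mono hR _ hcon)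
  have hdeep0 : z ∉ nbhd D.S ρ' D.C := by
    intro hcon
    exact hd (nbhd_mono (by omega) _ hcon)
  obtain ⟨m, hm, Bp, hBp⟩ := hρ' z hdeep0
  obtain ⟨B₁, hB₁⟩ := hT₃ (Bp + (c₁ * 1 + c₁) + wdist D.S 1 z + ρ)
  refine ⟨B₁ + m, wlen D.S D.c * m + wdist D.S 1 z, fun w hCl a b ha hb hN s hs1 hs2 => ?_⟩
  push_cast at ha hb hs1 hs2
  -- the window
  have hwin : ∀ s : ℤ, a + B₁ < s → s < b - B₁ → ∀ p ∈ D.L w,
      wdist D.S (D.c ^ s) p ≤ Bp + (c₁ * 1 + c₁) + wdist D.S 1 z + ρ →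
      p ∈ nbhd D.S T₃ D.C := by
    intro s h1 h2
    refine hB₁ w s (fun s' hs' => hN s' ?_ ?_)
    · rw [abs_le] at hs'; omega
    · rw [abs_le] at hs'; omega
  -- base
  have hbase : ∀ i : ℤ, 0 ≤ i → i < m → D.c ^ i * z ∈ D.Zb w σ := by
    intro i hi0 him
    have e1 : wdist D.S 1 (D.c ^ i * z) ≤ wlen D.S D.c * m + wdist D.S 1 z := by
      have a1 := wdist_triangle D.gS 1 (D.c ^ i) (D.c ^ i * z)
      have a2 := D.nearc_wdist_le (s := 0) (s' := i) (Y := m) (by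
        rw [zero_sub, abs_neg, abs_of_nonneg hi0]; exact him.le)
      rw [zpow_zero] at a2
      rw [agr_dist] at a1
      omega
    rw [he w _ σ (hCl _ e1) (hdeep e (by omega) i)]
    have e2 := D.mem_ZC_iff σ (D.c ^ i * z) z
    rw [D.A_mul (D.zpow_mem i)] at e2
    exact (e2.2 Iff.rfl).2 hz
  -- step
  have hstep : ∀ s : ℤ, a + B₁ < s → s < b - B₁ →
      (D.c ^ s * z ∈ D.Zb w σ ↔ D.c ^ (s + m) * z ∈ D.Zb w σ) := by
    intro s h1 h2
    have e1 := hBp (fun y => D.c ^ s * y ∈ D.Zb w σ) ?_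
    · have e2 : D.c ^ s * (D.c ^ m * z) = D.c ^ (s + m) * z := by
        rw [← mul_assoc, zpow_add, zpow_natCast]
      simp only [e2] at e1
      exact e1
    · intro x y hxy hx _ hx1 _
      by_contra hn
      obtain ⟨p, hp, hpd⟩ := hc₁ w σ (D.c ^ s * x) (D.c ^ s * y) 1 hn
        (by rw [wdist_mul_left]; exact hxy)
      have e3 := wdist_triangle D.gS (D.c ^ s) (D.c ^ s * x) p
      rw [agr_dist] at e3
      have e4 := hwin s h1 h2 p hp (by omega)
      have e5 := mem_nbhd_of_dist D.gS e4 hpd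
      rw [D.mem_nbhd_C_mul (D.zpow_mem s)] at e5
      exact hx (nbhd_mono (by omega) _ e5)
  refine ⟨?_, ?_⟩
  · have key : ∀ n : ℕ, ∀ s : ℤ, a + (B₁ + m) < s → s < b - (B₁ + m) → s.natAbs ≤ n →
        D.c ^ s * z ∈ D.Zb w σ := by
      intro n
      induction n with
      | zero =>
        intro s h1 h2 h3
        have h4 : s = 0 := by omega
        subst h4
        exact hbase 0 le_rfl (by omega)
      | succ n ih =>
        intro s h1 h2 h3
        rcases lt_or_ge s 0 with h0 | h0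
        · rw [hstep s (by omega) (by omega)]
          rcases lt_or_ge (s + m) 0 with h4 | h4
          · exact ih (s + m) (by omega) (by omega) (by omega)
          · exact hbase (s + m) h4 (by omega)
        · rcases lt_or_ge s m with h4 | h4
          · exact hbase s h0 h4
          · have e1 := hstep (s - m) (by omega) (by omega)
            rw [sub_add_cancel] at e1
            rw [← e1]
            exact ih (s - m) (by omega) (by omega) (by omega)
    exact key s.natAbs s (by omega) (by omega) le_rfl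
  · rintro ⟨p, hp, hpd⟩
    have e3 := wdist_triangle D.gS (D.c ^ s) (D.c ^ s * z) p
    rw [agr_dist] at e3
    have e4 := hwin s (by omega) (by omega) p hp (by omega)
    exact hdeep (ρ + T₃) (by omega) s (mem_nbhd_of_dist D.gS e4 hpd)

/-- there are points `z true`, `z false` on the two sides of `C` such that as long as the line of
`w` follows `C`, the point `c ^ s * z σ` is deep in the half-space `σ` of `w` -/
theorem agree (K T ρ : ℕ) : ∃ (z : Bool → G) (B n : ℕ),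
    (∀ σ, z σ ∈ D.ZC σ ∧ z σ ∉ nbhd D.S ρ D.C) ∧
    ∀ w : QW D.S D.S K, D.Cl w n K → ∀ a b : ℤ, a < -(B : ℤ) → (B : ℤ) < b →
      (∀ s, a < s → s < b → D.Near w T s) → ∀ s, a + B < s → s < b - B → ∀ σ,
      D.c ^ s * z σ ∈ D.Zb w σ ∧ D.c ^ s * z σ ∉ nbhd D.S ρ (D.L w) := by
  obtain ⟨d, hd⟩ := D.agr_one K T ρ
  obtain ⟨⟨t₁, ht₁, hn₁⟩, ⟨t₂, ht₂, hn₂⟩⟩ := D.exists_deepG (d + ρ)
  have hz : ∀ σ, (fun σ : Bool => if σ then t₁ else t₂) σ ∈ D.ZC σ ∧
      (fun σ : Bool => if σ then t₁ else t₂) σ ∉ nbhd D.S (d + ρ) D.C := by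
    intro σ
    cases σ
    · exact ⟨ht₂, hn₂⟩
    · exact ⟨ht₁, hn₁⟩
  generalize (fun σ : Bool => if σ then t₁ else t₂) = z at hz
  choose B n hBn using fun σ => hd (z σ) σ (hz σ).1
    (fun h => (hz σ).2 (nbhd_mono (Nat.le_add_right _ _) _ h))
  refine ⟨z, B true + B false, n true + n false, fun σ => ⟨(hz σ).1,
    fun h => (hz σ).2 (nbhd_mono (Nat.le_add_left _ _) _ h)⟩,
    fun w hCl a b ha hb hN s hs1 hs2 σ => ?_⟩
  have e1 : B σ ≤ B true + B false := by cases σ <;> omega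
  have e2 : n σ ≤ n true + n false := by cases σ <;> omega
  push_cast at ha hb hs1 hs2
  have e3 : (B σ : ℤ) ≤ B true + B false := by exact_mod_cast e1
  exact hBn σ w (fun x hx => hCl x (hx.trans e2)) a b (by omega) (by omega) hN s (by omega)
    (by omega)

/-- the powers of `c` in a ball about `1` are near the line of `w` -/
theorem near_of_Cl (K : ℕ) (B : ℕ) : ∃ n : ℕ, ∀ w : QW D.S D.S K, D.Cl w n K →
    ∀ s : ℤ, |s| ≤ B → D.Near w K s := by
  refine ⟨wlen D.S D.c * B, fun w hCl s hs => ?_⟩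
  have e1 : wdist D.S 1 (D.c ^ s) ≤ wlen D.S D.c * B := by
    have := D.nearc_wdist_le (s := 0) (s' := s) (Y := B) (by rwa [zero_sub, abs_neg])
    rwa [zpow_zero] at this
  refine ⟨w.f (D.c ^ s), D.f_mem_L w (D.zpow_mem s), ?_⟩
  rw [wdist_comm D.gS]
  exact hCl _ e1

/-- the sides at the centre -/
theorem center (K ρ : ℕ) : ∃ (z : Bool → G) (n : ℕ),
    (∀ σ, z σ ∈ D.ZC σ ∧ z σ ∉ nbhd D.S ρ D.C) ∧
    ∀ w : QW D.S D.S K, D.Cl w n K → ∀ σ,
      z σ ∈ D.Zb w σ ∧ z σ ∉ nbhd D.S ρ (D.L w) := by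
  obtain ⟨z, B, n, h1, h2⟩ := D.agree K K ρ
  obtain ⟨n', hn'⟩ := D.near_of_Cl K (B + 1)
  refine ⟨z, max n n', h1, fun w hw σ => ?_⟩
  have hm : ∀ m, m ≤ max n n' → D.Cl w m K := fun m hm x hx => hw x (hx.trans hm)
  have := h2 w (hm n (le_max_left _ _)) (-(B + 1 : ℤ)) (B + 1 : ℤ) (by omega) (by omega)
    (fun s hs1 hs2 => hn' w (hm n' (le_max_right _ _)) s (by
      rw [abs_le]; push_cast; constructor <;> omega)) 0 (by omega) (by omega) σ
  rwa [zpow_zero, one_mul] at this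

end Sp

end Pool.Agent.QIT
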