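import Pool.Agent.H67.W4.Three

/-!
# A translate of the half-space inside the half-space
-/

set_option autoImplicit false

namespace Pool.Agent.QIT

open Pool.Agent.QIS

open MulAction

namespace Sp

variable {G : Type} [Group G] (D : Sp G)

theorem chainG (M : ℕ) : ∃ q x₀ : G,
    (∃ ρ : ℕ, ∀ y, q⁻¹ * y ∈ D.H0 → y ∉ D.H0 → q⁻¹ * y ∈ nbhd D.S ρ D.C) ∧
    x₀ ∈ D.H0 ∧ q⁻¹ * x₀ ∉ D.H0 ∧ x₀ ∉ nbhd D.S M D.C ∧ q⁻¹ * x₀ ∉ nbhd D.S M D.C := by
  obtain ⟨k, hdisj⟩ := D.three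
  obtain ⟨w, hw⟩ : ∃ w : QW D.S D.S 1, w = QW.idw D.S (le_refl 1) := ⟨_, rfl⟩
  have hwf : ∀ x, w.f x = x := fun x => by rw [hw]; rfl
  have hwf' : ∀ x, w.f' x = x := fun x => by rw [hw]; rfl
  have hL : D.L w = D.C := by rw [hw]; exact D.L_idw (le_refl 1)
  have hZ : ∀ y, y ∈ D.Zb w true ↔ y ∈ D.H0 := fun y => by
    show D.A (w.f' y) ↔ _
    rw [hwf']
    exact Iff.rfl
  obtain ⟨R₀, hR₀⟩ := D.exists_R (S' := D.S) D.gS 1
  obtain ⟨c, hc⟩ := D.exists_cr (S' := D.S) D.gS 1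
  obtain ⟨e, he⟩ := D.t3_line (S' := D.S) (K := 1)
  obtain ⟨R₀', hR₀'⟩ : ∃ m, m = R₀ + (c * R₀ + c) + (1 * e + 1) := ⟨_, rfl⟩
  obtain ⟨ρ, R₁, hρ⟩ := D.near_of_corner (S' := D.S) D.gS 1 R₀'
  obtain ⟨r, hr⟩ := D.exists_r D.S 1 (M + (1 * e + 1) + (c * M + c) + ρ)
  obtain ⟨r₃, hr₃⟩ : ∃ m : ℕ, ∀ i, wlen D.S (k i) ≤ m := by
    refine ⟨∑ i, wlen D.S (k i), fun i => ?_⟩
    exact Finset.single_le_sum (f := fun i => wlen D.S (k i))
      (fun i _ => Nat.zero_le _) (Finset.mem_univ i)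
  obtain ⟨g, hg, hgn⟩ := (D.exists_deepG
    ((c * r₃ + c) + (r₃ + R₀) + (r₃ + R₁) + (r₃ + r + M))).1
  obtain ⟨W, hW⟩ : ∃ W : Fin 3 → QW D.S D.S 1, ∀ i, W i = w.tw 1 (g * k i) := ⟨_, fun _ => rfl⟩
  have hWZ : ∀ i y, y ∈ D.Zb (W i) true ↔ (g * k i)⁻¹ * y ∈ D.H0 := by
    intro i y
    rw [hW, D.t3_Zb, hwf', mul_inv_rev, mul_assoc]
  have hWL : ∀ i y, y ∈ D.L (W i) ↔ (g * k i)⁻¹ * y ∈ D.Cg := by
    intro i y
    rw [hW]
    constructor
    · rintro ⟨x, hx, rfl⟩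
      show (g * k i)⁻¹ * (1 * w.f (g * k i * x)) ∈ D.Cg
      rw [hwf, one_mul, inv_mul_cancel_left]
      exact hx
    · intro h
      refine ⟨_, h, ?_⟩
      show y = 1 * w.f (g * k i * ((g * k i)⁻¹ * y))
      rw [hwf, one_mul, mul_inv_cancel_left]
  have hWN : ∀ i m y, y ∈ nbhd D.S m (D.L (W i)) ↔ (g * k i)⁻¹ * y ∈ nbhd D.S m D.C := by
    intro i m y
    constructor
    · rintro ⟨l, hl, hd⟩
      exact ⟨_, (hWL i l).1 hl, by rw [wdist_mul_left]; exact hd⟩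
    · rintro ⟨l, hl, hd⟩
      refine ⟨g * k i * l, (hWL i _).2 (by rw [inv_mul_cancel_left]; exact hl), ?_⟩
      rw [← wdist_mul_left (g * k i), mul_inv_cancel_left] at hd
      exact hd
  have hU : ∀ i j, i ≠ j → ∀ y, y ∈ D.Zb (W i) true → y ∉ D.Zb (W j) true := by
    intro i j hij y h1 h2
    rw [hWZ, mul_inv_rev, mul_assoc] at h1 h2
    exact hdisj i j hij _ ⟨h1, h2⟩
  have hbase : ∀ i, g * k i ∈ D.L (W i) := fun i => (hWL i _).2 (by
    rw [inv_mul_cancel]; exact D.Cg.one_mem)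
  have hgk : ∀ i, wdist D.S g (g * k i) ≤ r₃ := by
    intro i
    unfold wdist
    rw [inv_mul_cancel_left]
    exact hr₃ i
  -- a line enters at most one of the three half-spaces
  have hone : ∀ (i j : Fin 3), i ≠ j →
      (∃ q ∈ D.L w, q ∉ nbhd D.S R₀' (D.L (W i)) ∧ q ∈ D.Zb (W i) true) →
      ¬ (∃ q ∈ D.L w, q ∉ nbhd D.S R₀' (D.L (W j)) ∧ q ∈ D.Zb (W j) true) := by
    rintro i j hij ⟨q, hq, hqn, hqU⟩ ⟨q', hq', hqn', hqU'⟩
    obtain ⟨ν, hν⟩ := hR₀ (W j) w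
    have h1 : ν = true := by
      have h2 := hν q' hq' (fun h' => hqn' (nbhd_mono (by omega) _ h'))
      cases ν
      · exact absurd hqU' h2
      · rfl
    rw [h1] at hν
    have h2 : q ∈ nbhd D.S R₀ (D.L (W j)) := by
      by_contra h3
      exact hU i j hij q hqU (hν q hq h3)
    obtain ⟨l, hl, hd⟩ := h2
    by_cases hlU : l ∈ D.Zb (W i) true
    · have h3 : l ∈ nbhd D.S (1 * e + 1) (D.L (W i)) := by
        rw [hW] at hlU
        rw [hW] at hl ⊢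
        exact he w g (k i) (k j) (hdisj i j hij) l hl hlU
      exact hqn (nbhd_mono (by omega) _ (mem_nbhd_of_dist D.gS h3 hd))
    · exact hqn (nbhd_mono (by omega) _
        (hc (W i) true q l R₀ (fun h' => hlU (h'.1 hqU)) hd))
  -- two good indices
  obtain ⟨i, j, hij, hi, hj⟩ : ∃ i j : Fin 3, i ≠ j ∧
      (∀ q ∈ D.L w, q ∉ nbhd D.S R₀' (D.L (W i)) → q ∉ D.Zb (W i) true) ∧
      (∀ q ∈ D.L w, q ∉ nbhd D.S R₀' (D.L (W j)) → q ∉ D.Zb (W j) true) := by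
    have hbad : ∀ i j : Fin 3, i ≠ j →
        (¬ ∀ q ∈ D.L w, q ∉ nbhd D.S R₀' (D.L (W i)) → q ∉ D.Zb (W i) true) →
        (∀ q ∈ D.L w, q ∉ nbhd D.S R₀' (D.L (W j)) → q ∉ D.Zb (W j) true) := by
      intro i j hij h1 q hq hqn hqU
      push Not at h1
      exact hone i j hij h1 ⟨q, hq, hqn, hqU⟩
    by_cases a0 : ∀ q ∈ D.L w, q ∉ nbhd D.S R₀' (D.L (W 0)) → q ∉ D.Zb (W 0) true
    · by_cases a1 : ∀ q ∈ D.L w, q ∉ nbhd D.S R₀' (D.L (W 1)) → q ∉ D.Zb (W 1) true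
      · exact ⟨0, 1, by decide, a0, a1⟩
      · exact ⟨0, 2, by decide, a0, hbad 1 2 (by decide) a1⟩
    · exact ⟨1, 2, by decide, hbad 0 1 (by decide) a0, hbad 0 2 (by decide) a0⟩
  -- a good half-space is contained in `H0`
  have hin : ∀ l : Fin 3, (∀ q ∈ D.L w, q ∉ nbhd D.S R₀' (D.L (W l)) → q ∉ D.Zb (W l) true) →
      ∀ z, z ∈ D.Zb (W l) true → z ∉ nbhd D.S ρ (D.L (W l)) → z ∈ D.H0 := by
    intro l hgood z hz hzn
    have hfar : ∀ m, m ≤ (c * r₃ + c) + (r₃ + R₀) + (r₃ + R₁) + (r₃ + r + M) →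
        g ∉ nbhd D.S m (D.L w) := by
      intro m hm h
      rw [hL] at h
      exact hgn (nbhd_mono hm _ h)
    have hpv : g * k l ∈ D.Zb w true := by
      by_contra h1
      exact hfar _ (by omega) (hc w true g (g * k l) r₃
        (fun h' => h1 (h'.1 ((hZ g).2 hg))) (hgk l))
    have hgk' : wdist D.S (g * k l) g ≤ r₃ := by
      rw [wdist_comm D.gS]; exact hgk l
    have hon : D.On w (W l) R₀ true := by
      obtain ⟨ν, hν⟩ := hR₀ w (W l)
      have h1 : ν = true := by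
        have h2 := hν (g * k l) (hbase l) (fun h' => hfar _ (by omega)
          (mem_nbhd_of_dist D.gS h' (hgk l)))
        cases ν
        · exact absurd hpv h2
        · rfl
      rw [h1] at hν
      exact hν
    by_contra hzv
    have h1 := hρ (W l) w false true
      (fun q hq hqn => (D.mem_Zb_not (W l) true q).2 (hgood q hq hqn))
      (On.mono D hon (by omega))
      ⟨z, fun h' => (D.mem_Zb_not (W l) true z).1 h' hz, fun h' => hzv ((hZ z).1 h'), hzn⟩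
      (hbase l)
    exact hfar _ (by omega) (mem_nbhd_of_dist D.gS h1 (hgk l))
  -- the point between
  obtain ⟨z, hz, hzd, hzn⟩ := hr (W j) true (g * k j) (hbase j)
  refine ⟨g * k i, z, ⟨ρ, fun y hy hy' => ?_⟩, ?_, ?_, ?_, ?_⟩
  · by_contra h
    exact hy' (hin i hi y ((hWZ i y).2 hy) (fun h' => h ((hWN i ρ y).1 h')))
  · exact hin j hj z hz (fun h' => hzn (nbhd_mono (by omega) _ h'))
  · intro h
    exact hU j i (Ne.symm hij) z hz ((hWZ i z).2 h)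
  · intro h
    have e1 : wdist D.S g z ≤ r₃ + r := by
      have := wdist_triangle D.gS g (g * k j) z
      have := hgk j
      omega
    exact hgn (nbhd_mono (by omega) _ (mem_nbhd_of_dist D.gS h e1))
  · intro h
    rw [← hWN] at h
    obtain ⟨l, hl, hd⟩ := h
    by_cases hlU : l ∈ D.Zb (W j) true
    · have h3 : l ∈ nbhd D.S (1 * e + 1) (D.L (W j)) := by
        rw [hW] at hlU
        rw [hW] at hl ⊢
        exact he w g (k j) (k i) (hdisj j i (Ne.symm hij)) l hl hlU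
      exact hzn (nbhd_mono (by omega) _ (mem_nbhd_of_dist D.gS h3 hd))
    · exact hzn (nbhd_mono (by omega) _
        (hc (W j) true z l M (fun h' => hlU (h'.1 hz)) hd))

end Sp

end Pool.Agent.QIT
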