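import Pool.Agent.H67.W2.Full
import Pool.Agent.H67.Q.Perm2

/-!
# Fourth project of MP_bbdce3_al: an uncrossed half-space is enough. Definitions.

The files of this folder follow those of the third project (folder W3), with a half-space of the
group in place of a splitting.
`Sp G`: a one-ended group with a half-space along a two-ended group `C` that no quasi-isometry moves
across itself. `QW S S' K`: a quasi-isometry `f` with a quasi-inverse `f'`. The wall of `w : QW` is
the line `D.L w = f(C)` with the sides `D.Z w` and its complement.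
-/

set_option autoImplicit false

namespace Pool.Agent.QIT

open Pool.Agent.QIS

open MulAction

/-- a one-ended group with an uncrossed half-space `A` whose stabilizer contains the two-ended group
`Cg`, and a generator of a subgroup of finite index of `Cg` -/
structure Sp (G : Type) [Group G] where
  S : Set G
  hS : S.Finite
  gS : Subgroup.closure S = ⊤
  hone : OneEnded S
  Cg : Subgroup G
  hC : TwoEnded Cg
  H0 : Set G
  hinv : ∀ x ∈ Cg, ∀ g, x * g ∈ H0 ↔ g ∈ H0
  hcr : ∃ c : ℕ, ∀ x y : G, ¬ (x ∈ H0 ↔ y ∈ H0) → x ∈ nbhd S (wdist S x y + c) (Cg : Set G)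
  hdeep : ∀ d : ℕ, (∃ t ∈ H0, t ∉ nbhd S d (Cg : Set G)) ∧
    (∃ t, t ∉ H0 ∧ t ∉ nbhd S d (Cg : Set G))
  nc : ∀ K : ℕ, ∃ R : ℕ, ∀ φ : G → G, IsQI S S K φ →
    (∀ g ∈ Cg, φ g ∉ nbhd S R (Cg : Set G) → φ g ∈ H0) ∨
    (∀ g ∈ Cg, φ g ∉ nbhd S R (Cg : Set G) → φ g ∉ H0)
  three : ∃ k : Fin 3 → G, ∀ i j, i ≠ j → ∀ v : G, ¬ ((k i)⁻¹ * v ∈ H0 ∧ (k j)⁻¹ * v ∈ H0)
  c : G
  hc : c ∈ Cg
  hinf : ∀ n : ℕ, 0 < n → c ^ n ≠ 1
  Dc : ℕ
  hcov : ∀ x ∈ Cg, ∃ n : ℤ, wdist S x (c ^ n) ≤ Dc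

/-- a quasi-isometry with a quasi-inverse -/
structure QW {G X : Type} [Group G] [Group X] (S : Set G) (S' : Set X) (K : ℕ) where
  f : G → X
  f' : X → G
  hf : IsQI S S' K f
  hf' : IsQI S' S K f'
  h1 : ∀ y, wdist S' (f (f' y)) y ≤ K
  h2 : ∀ x, wdist S (f' (f x)) x ≤ K

namespace Sp

variable {G : Type} [Group G] (D : Sp G)

/-- the same with the inverse generator -/
def flip : Sp G where
  S := D.S
  hS := D.hS
  gS := D.gS
  hone := D.hone
  Cg := D.Cg
  hC := D.hC
  H0 := D.H0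
  hinv := D.hinv
  hcr := D.hcr
  hdeep := D.hdeep
  nc := D.nc
  three := D.three
  c := D.c⁻¹
  hc := D.Cg.inv_mem D.hc
  hinf := by
    intro n hn h
    exact D.hinf n hn (by rwa [inv_pow, inv_eq_one] at h)
  Dc := D.Dc
  hcov := by
    intro x hx
    obtain ⟨n, hn⟩ := D.hcov x hx
    exact ⟨-n, by rw [inv_zpow, zpow_neg, inv_inv]; exact hn⟩

/-- the edge group as a set -/
def C : Set G := (D.Cg : Set G)

/-- a point of `G` is on the side of `a` -/
def A (g : G) : Prop := g ∈ D.H0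

variable {X : Type} [Group X] {S' : Set X} {K : ℕ}

/-- the line of a wall -/
def L (w : QW D.S S' K) : Set X := {y | ∃ x ∈ D.Cg, y = w.f x}

/-- the half-space of a wall -/
def Z (w : QW D.S S' K) : Set X := {y | D.A (w.f' y)}

/-- the two half-spaces -/
def Zb (w : QW D.S S' K) (σ : Bool) : Set X := if σ then D.Z w else (D.Z w)ᶜ

/-- the two half-spaces of `G` -/
def ZC (σ : Bool) : Set G := if σ then {g | D.A g} else {g | ¬ D.A g}

/-- the line passes within `T` of `c ^ s` -/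
def Near {K : ℕ} (w : QW D.S D.S K) (T : ℕ) (s : ℤ) : Prop := D.c ^ s ∈ nbhd D.S T (D.L w)

/-- `w` is close to the identity on the ball of radius `n` -/
def Cl {K : ℕ} (w : QW D.S D.S K) (n κ : ℕ) : Prop :=
  ∀ x, wdist D.S 1 x ≤ n → wdist D.S (w.f x) x ≤ κ

end Sp

end Pool.Agent.QIT
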