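import Pool.Agent.H67.W4.Dich

/-!
# A line cannot leave the edge group at both ends
-/

set_option autoImplicit false

namespace Pool.Agent.QIT

open Pool.Agent.QIS

namespace Sp

variable {G : Type} [Group G] (D : Sp G)

theorem exit_near_mono {K : ℕ} {w : QW D.S D.S K} {T T' : ℕ} (h : T ≤ T') {s : ℤ}
    (hs : D.Near w T s) : D.Near w T' s := nbhd_mono h _ hs

/-- the first integer `≥ 0` at which a property fails -/
theorem exit_first {P : ℤ → Prop} (h : ∃ s : ℤ, 0 ≤ s ∧ ¬ P s) :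
    ∃ b : ℤ, 0 ≤ b ∧ ¬ P b ∧ ∀ s : ℤ, 0 ≤ s → s < b → P s := by
  classical
  obtain ⟨s, hs, hP⟩ := h
  have hex : ∃ n : ℕ, ¬ P (n : ℤ) := ⟨s.toNat, by rwa [Int.toNat_of_nonneg hs]⟩
  refine ⟨(Nat.find hex : ℤ), by positivity, Nat.find_spec hex, fun t ht htb => ?_⟩
  have h1 : t.toNat < Nat.find hex := by omega
  have h2 := Nat.find_min hex h1
  rw [not_not, Int.toNat_of_nonneg ht] at h2
  exact h2

theorem exit_near_tw {K : ℕ} (w : QW D.S D.S K) (j s : ℤ) (T : ℕ) :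
    D.Near (w.tw (D.c ^ j) 1) T s ↔ D.Near w T (s - j) := by
  unfold Near
  rw [D.mem_nbhd_L_tw w (D.c ^ j) D.Cg.one_mem T (D.c ^ s), ← zpow_neg, ← zpow_add,
    neg_add_eq_sub]

theorem exit_ab_tw {K : ℕ} {w : QW D.S D.S K} {R : ℕ} {σ : Bool} (h : D.Ab w R σ) (j : ℤ) :
    D.Ab (w.tw (D.c ^ j) 1) R σ := by
  intro x hx hn
  rw [D.mem_nbhd_L_tw w (D.c ^ j) D.Cg.one_mem] at hn
  rw [D.mem_Zb_tw w (D.c ^ j) D.Cg.one_mem]
  exact h _ (D.Cg.mul_mem (D.Cg.inv_mem (D.zpow_mem j)) hx) hn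

/-- the rotation argument -/
theorem exit_rot {N1 N2 N0 : ℤ → Prop} {a b : ℤ} (ha : 0 < a) (hb : 0 < b)
    (h0 : N0 0) (h1 : N1 0) (h21 : ∀ s, N1 s → N2 s) (hna : ¬ N2 (-a)) (hnb : ¬ N2 b)
    (hj : ∀ j : ℤ, 1 ≤ j → j ≤ max a b →
      ((∀ s, ¬ N1 s → ¬ N0 (s - j)) ∧ (∀ s, ¬ N2 s → ¬ N1 (s - j))) ∨
      ((∀ s, ¬ N1 s → ¬ N0 (s + j)) ∧ (∀ s, ¬ N2 s → ¬ N1 (s + j)))) : False := by
  have key : ∀ k : ℕ, ∃ x m : ℤ, -a ≤ x ∧ x ≤ b ∧ x = -((k : ℤ) + 1) * a + m * (a + b) ∧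
      ¬ N1 x := by
    intro k
    induction k with
    | zero =>
      refine ⟨b, 1, by omega, le_rfl, by push_cast; ring, fun h => hnb (h21 _ h)⟩
    | succ k ih =>
      obtain ⟨x, m, hx1, hx2, hx3, hx4⟩ := ih
      rcases lt_trichotomy x 0 with hx | hx | hx
      · rcases hj (-x) (by omega) (by rw [le_max_iff]; left; omega) with h | h
        · refine ⟨b + x, m + 1, by omega, by omega, ?_, ?_⟩
          · rw [hx3]; push_cast; ring
          · have := h.2 b hnb
            rwa [sub_neg_eq_add] at this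
        · exfalso
          have := h.1 x hx4
          rw [add_neg_cancel] at this
          exact this h0
      · rw [hx] at hx4
        exact absurd h1 hx4
      · rcases hj x (by omega) (by rw [le_max_iff]; right; omega) with h | h
        · exfalso
          have := h.1 x hx4
          rw [sub_self] at this
          exact this h0
        · refine ⟨-a + x, m, by omega, by omega, ?_, h.2 (-a) hna⟩
          rw [hx3]; push_cast; ring
  obtain ⟨x, m, hx1, hx2, hx3, hx4⟩ := key ((a + b - 1).toNat)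
  have e1 : (((a + b - 1).toNat : ℕ) : ℤ) = a + b - 1 := Int.toNat_of_nonneg (by omega)
  rw [e1] at hx3
  have hx5 : x = (m - a) * (a + b) := by rw [hx3]; ring
  have hx6 : x = 0 := by
    rcases lt_trichotomy (m - a) 0 with h | h | h
    · have : (m - a) * (a + b) ≤ -1 * (a + b) :=
        mul_le_mul_of_nonneg_right (by omega) (by omega)
      omega
    · rw [hx5, h, zero_mul]
    · have : 1 * (a + b) ≤ (m - a) * (a + b) :=
        mul_le_mul_of_nonneg_right (by omega) (by omega)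
      omega
  rw [hx6] at hx4
  exact hx4 h1

/-- a line that is close to the identity in the centre cannot leave `C` at both ends -/
theorem no_double_exit (K : ℕ) (hK : 1 ≤ K) : ∃ T n : ℕ, ∀ w : QW D.S D.S K, D.Cl w n K →
    (∀ s : ℤ, 0 ≤ s → D.Near w T s) ∨ (∀ s : ℤ, s ≤ 0 → D.Near w T s) := by
  obtain ⟨R, T₀, n₀, hsides⟩ := D.sides K hK
  obtain ⟨f, ρ, hf, hdich⟩ := D.dich K R
  obtain ⟨T0, hT0⟩ : ∃ T0, T0 = max K T₀ := ⟨_, rfl⟩
  have hKT : K ≤ T0 := by rw [hT0]; exact le_max_left _ _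
  have hTT : T₀ ≤ T0 := by rw [hT0]; exact le_max_right _ _
  have h01 : T0 ≤ f T0 := hf T0
  have h12 : f T0 ≤ f (f T0) := hf _
  obtain ⟨z, B, n₁, -, hagree⟩ := D.agree K (f (f T0)) ρ
  obtain ⟨n₂, hnear⟩ := D.near_of_Cl K (2 * B + 4)
  refine ⟨f (f T0), max n₀ (max n₁ n₂), fun w hw => ?_⟩
  have hm : ∀ m, m ≤ max n₀ (max n₁ n₂) → D.Cl w m K := fun m hm x hx => hw x (hx.trans hm)
  have hw0 := hm n₀ (le_max_left _ _)
  have hw1 := hm n₁ ((le_max_left _ _).trans (le_max_right _ _))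
  have hw2 := hm n₂ ((le_max_right _ _).trans (le_max_right _ _))
  have hc : ∀ s : ℤ, |s| ≤ 2 * B + 4 → D.Near w K s := fun s hs =>
    hnear w hw2 s (by push_cast; exact hs)
  by_contra hcon
  push Not at hcon
  obtain ⟨⟨s₁, hs₁, hn₁⟩, ⟨s₂, hs₂, hn₂⟩⟩ := hcon
  obtain ⟨b, hb0, hnb, hbmin⟩ := exit_first (P := fun s => D.Near w (f (f T0)) s) ⟨s₁, hs₁, hn₁⟩
  obtain ⟨a, ha0, hna, hamin⟩ := exit_first (P := fun s => D.Near w (f (f T0)) (-s))
    ⟨-s₂, by omega, by rwa [neg_neg]⟩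
  have hbB : 2 * (B : ℤ) + 4 < b := by
    by_contra h
    exact hnb (D.exit_near_mono (hKT.trans (h01.trans h12)) (hc b (by rw [abs_le]; omega)))
  have haB : 2 * (B : ℤ) + 4 < a := by
    by_contra h
    exact hna (D.exit_near_mono (hKT.trans (h01.trans h12)) (hc (-a) (by rw [abs_le]; omega)))
  have hmid : ∀ s : ℤ, -a < s → s < b → D.Near w (f (f T0)) s := by
    intro s h1 h2
    rcases le_total 0 s with h | h
    · exact hbmin s h h2
    · have := hamin (-s) (by omega) (by omega)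
      rwa [neg_neg] at this
  rcases hsides w hw0 with hall | ⟨σ, hAb, -⟩
  · exact hnb (D.exit_near_mono (hTT.trans (h01.trans h12)) (hall b))
  have h00 : D.Near w K 0 := hc 0 (by rw [abs_zero]; positivity)
  refine exit_rot (N0 := D.Near w T0) (N1 := D.Near w (f T0)) (N2 := D.Near w (f (f T0)))
    (a := a) (b := b) (by omega) (by omega) (D.exit_near_mono hKT h00)
    (D.exit_near_mono (hKT.trans h01) h00) (fun s h => D.exit_near_mono h12 h) hna hnb ?_
  intro j hj1 hj2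
  have hjab : j < a + b - 2 * B - 1 := by
    rcases le_max_iff.1 hj2 with h | h
    · omega
    · omega
  have hreg : ∀ s : ℤ, -a + B < s → s < b - B →
      D.c ^ s * z σ ∈ D.Zb w σ ∧ D.c ^ s * z σ ∉ nbhd D.S ρ (D.L w) := fun s h1 h2 =>
    hagree w hw1 (-a) b (by omega) (by omega) hmid s h1 h2 σ
  have hz1 := hreg (-a + B + j + 1) (by omega) (by omega)
  have hz2 := hreg (-a + B + 1) (by omega) (by omega)
  have hcommon : ∃ y, y ∈ D.Zb w σ ∧ y ∈ D.Zb (w.tw (D.c ^ j) 1) σ ∧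
      y ∉ nbhd D.S ρ (D.L w) := by
    refine ⟨D.c ^ (-a + B + j + 1) * z σ, hz1.1, ?_, hz1.2⟩
    rw [D.mem_Zb_tw w (D.c ^ j) D.Cg.one_mem, ← mul_assoc, ← zpow_neg, ← zpow_add]
    have e : -j + (-a + B + j + 1) = -a + B + 1 := by ring
    rw [e]
    exact hz2.1
  rcases hdich w (w.tw (D.c ^ j) 1) σ hAb (D.exit_ab_tw hAb j) hcommon with h | h
  · left
    constructor
    · intro s hs h'
      exact h s T0 hs ((D.exit_near_tw w j s T0).2 h')
    · intro s hs h'
      exact h s (f T0) hs ((D.exit_near_tw w j s (f T0)).2 h')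
  · right
    constructor
    · intro s hs h'
      refine h (s + j) T0 (fun h2 => hs ?_) h'
      have := (D.exit_near_tw w j (s + j) (f T0)).1 h2
      rwa [add_sub_cancel_right] at this
    · intro s hs h'
      refine h (s + j) (f T0) (fun h2 => hs ?_) h'
      have := (D.exit_near_tw w j (s + j) (f (f T0))).1 h2
      rwa [add_sub_cancel_right] at this

end Sp

end Pool.Agent.QIT
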