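import Pool.Agent.H67.W4.A

/-!
# Three disjoint half-spaces near each point
-/

set_option autoImplicit false

namespace Pool.Agent.QIT

open Pool.Agent.QIS

open MulAction

namespace Sp

variable {G : Type} [Group G] (D : Sp G)

variable {X : Type} [Group X] {S' : Set X}

/-- the sides of a twisted wall in the group -/
theorem t3_Zb {K : ℕ} (w : QW D.S S' K) (g k : G) (y : X) :
    y ∈ D.Zb (w.tw 1 (g * k)) true ↔ k⁻¹ * (g⁻¹ * w.f' y) ∈ D.H0 := by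
  show (g * k)⁻¹ * w.f' (1⁻¹ * y) ∈ D.H0 ↔ _
  rw [inv_one, one_mul, mul_inv_rev, mul_assoc]

/-- a line of the family is near a half-space of another one only along its line -/
theorem t3_line {K : ℕ} : ∃ e : ℕ, ∀ (w : QW D.S S' K) (g : G) (k k' : G),
    (∀ v : G, ¬ (k⁻¹ * v ∈ D.H0 ∧ k'⁻¹ * v ∈ D.H0)) → ∀ l ∈ D.L (w.tw 1 (g * k')),
      l ∈ D.Zb (w.tw 1 (g * k)) true → l ∈ nbhd S' (K * e + K) (D.L (w.tw 1 (g * k))) := by
  obtain ⟨e₀, he₀⟩ := D.exists_e (S' := S') K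
  obtain ⟨c, hc⟩ := D.exists_crossG
  obtain ⟨t, ht, -⟩ := (D.exists_deepG 0).1
  refine ⟨max e₀ (wlen D.S t + c), fun w g k k' hn l hl hlU => ?_⟩
  obtain ⟨x, hx, rfl⟩ := hl
  -- the point of the group below `l`
  have e1 : (w.tw 1 (g * k')).f x = (w.tw 1 (g * k)).f (k⁻¹ * (k' * x)) := by
    show 1 * w.f (g * k' * x) = 1 * w.f (g * k * (k⁻¹ * (k' * x)))
    congr 2
    group
  rw [e1] at hlU ⊢
  have key : ∀ e : ℕ, e ≤ max e₀ (wlen D.S t + c) → k⁻¹ * (k' * x) ∈ nbhd D.S e D.C →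
      (w.tw 1 (g * k)).f (k⁻¹ * (k' * x)) ∈ nbhd S' (K * max e₀ (wlen D.S t + c) + K)
        (D.L (w.tw 1 (g * k))) := by
    rintro e he ⟨m, hm, hd⟩
    refine ⟨(w.tw 1 (g * k)).f m, ⟨m, hm, rfl⟩, ?_⟩
    refine ((w.tw 1 (g * k)).hf.1 _ _).trans ?_
    gcongr
    exact hd.trans he
  by_cases hnear : k⁻¹ * (k' * x) ∈ nbhd D.S e₀ D.C
  · exact key e₀ (le_max_left _ _) hnear
  · have h1 : D.A (k⁻¹ * (k' * x)) := (he₀ (w.tw 1 (g * k)) _ hnear).1 hlU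
    have h2 : ¬ D.A (k⁻¹ * (k' * (x * t))) := by
      intro h3
      refine hn (k' * (x * t)) ⟨h3, ?_⟩
      rw [inv_mul_cancel_left]
      exact (D.A_mul hx t).2 ht
    have h3 := hc _ _ (fun h4 => h2 (h4.1 h1))
    have h4 : wdist D.S (k⁻¹ * (k' * x)) (k⁻¹ * (k' * (x * t))) = wlen D.S t := by
      unfold wdist
      congr 1
      group
    rw [h4] at h3
    exact key _ (le_max_right _ _) h3

/-- `Le` without the definition: the half-space `σ` of `w` is contained in the half-space `σ'` of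
`w'` up to points near the two lines -/
theorem deep_corner (gS' : Subgroup.closure S' = ⊤) (K : ℕ) : ∃ R : ℕ,
    ∀ (w w' : QW D.S S' K) (σ σ' : Bool) (y₀ : X), y₀ ∈ D.Zb w σ → y₀ ∈ D.Zb w' σ' →
      y₀ ∉ nbhd S' R (D.L w) → y₀ ∉ nbhd S' R (D.L w') →
      ∀ d : ℕ, ∃ y, y ∈ D.Zb w σ ∧ y ∈ D.Zb w' σ' ∧ y ∉ nbhd S' d (D.L w) ∧
        y ∉ nbhd S' d (D.L w') := by
  obtain ⟨k, hdisj⟩ := D.three
  obtain ⟨τ, hτ1⟩ : ∃ τ : Fin 3 → Bool, ∀ i, τ i = true := ⟨fun _ => true, fun _ => rfl⟩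
  obtain ⟨R₀, hR₀⟩ := D.exists_R gS' K
  obtain ⟨c, hc⟩ := D.exists_cr gS' K
  obtain ⟨e, he⟩ := D.t3_line (S' := S') (K := K)
  obtain ⟨R₀', hR₀'⟩ : ∃ m, m = R₀ + (c * R₀ + c) + (K * e + K) := ⟨_, rfl⟩
  obtain ⟨ρ, R₁, hρ⟩ := D.near_of_corner gS' K R₀'
  obtain ⟨r₃, hr₃⟩ : ∃ m : ℕ, ∀ i, K * wlen D.S (k i) + K + K ≤ m := by
    refine ⟨∑ i, (K * wlen D.S (k i) + K + K), fun i => ?_⟩
    exact Finset.single_le_sum (f := fun i => K * wlen D.S (k i) + K + K)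
      (fun i _ => Nat.zero_le _) (Finset.mem_univ i)
  refine ⟨(c * r₃ + c) + (r₃ + R₀) + (r₃ + R₁), fun w w' σ σ' y₀ hσ hσ' hn hn' d => ?_⟩
  obtain ⟨g, hg⟩ : ∃ g, g = w.f' y₀ := ⟨_, rfl⟩
  -- the three walls
  obtain ⟨W, hW⟩ : ∃ W : Fin 3 → QW D.S S' K, ∀ i, W i = w.tw 1 (g * k i) := ⟨_, fun _ => rfl⟩
  have hU : ∀ i j, i ≠ j → ∀ y, y ∈ D.Zb (W i) (τ i) → y ∉ D.Zb (W j) (τ j) := by
    intro i j hij y h1 h2
    rw [hW, hτ1, D.t3_Zb] at h1 h2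
    exact hdisj i j hij _ ⟨h1, h2⟩
  -- the base points
  have hp : ∀ i, ∃ p ∈ D.L (W i), wdist S' y₀ p ≤ r₃ := by
    intro i
    refine ⟨w.f (g * k i), ?_, ?_⟩
    · rw [hW]
      refine ⟨1, D.Cg.one_mem, ?_⟩
      show w.f (g * k i) = 1 * w.f (g * k i * 1)
      rw [mul_one, one_mul]
    · have e1 := w.h1 y₀
      rw [← hg, wdist_comm gS'] at e1
      have e2 := w.hf.1 g (g * k i)
      have e3 : wdist D.S g (g * k i) = wlen D.S (k i) := by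
        unfold wdist
        rw [inv_mul_cancel_left]
      rw [e3] at e2
      have e4 := wdist_triangle gS' y₀ (w.f g) (w.f (g * k i))
      have e5 := hr₃ i
      omega
  -- a line enters at most one of the three half-spaces
  have hone : ∀ (v : QW D.S S' K) (i j : Fin 3), i ≠ j →
      (∃ q ∈ D.L v, q ∉ nbhd S' R₀' (D.L (W i)) ∧ q ∈ D.Zb (W i) (τ i)) →
      ¬ (∃ q ∈ D.L v, q ∉ nbhd S' R₀' (D.L (W j)) ∧ q ∈ D.Zb (W j) (τ j)) := by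
    rintro v i j hij ⟨q, hq, hqn, hqU⟩ ⟨q', hq', hqn', hqU'⟩
    obtain ⟨ν, hν⟩ := hR₀ (W j) v
    have h1 : ν = τ j := by
      have h2 := hν q' hq' (fun h' => hqn' (nbhd_mono (by omega) _ h'))
      by_contra h3
      have h4 : ν = !(τ j) := by
        cases hν' : ν <;> cases hτ : τ j <;> simp_all
      rw [h4, mem_Zb_not] at h2
      exact h2 hqU'
    rw [h1] at hν
    have h2 : q ∈ nbhd S' R₀ (D.L (W j)) := by
      by_contra h3
      exact hU i j hij q hqU (hν q hq h3)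
    obtain ⟨l, hl, hd⟩ := h2
    by_cases hlU : l ∈ D.Zb (W i) (τ i)
    · have h3 : l ∈ nbhd S' (K * e + K) (D.L (W i)) := by
        rw [hW, hτ1] at hlU
        rw [hW] at hl ⊢
        exact he w g (k i) (k j) (hdisj i j hij) l hl hlU
      exact hqn (nbhd_mono (by omega) _ (mem_nbhd_of_dist gS' h3 hd))
    · exact hqn (nbhd_mono (by omega) _
        (hc (W i) (τ i) q l R₀ (fun h' => hlU (h'.1 hqU)) hd))
  -- a good index
  obtain ⟨i, hi, hi'⟩ : ∃ i, (∀ q ∈ D.L w, q ∉ nbhd S' R₀' (D.L (W i)) → q ∉ D.Zb (W i) (τ i)) ∧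
      (∀ q ∈ D.L w', q ∉ nbhd S' R₀' (D.L (W i)) → q ∉ D.Zb (W i) (τ i)) := by
    have hbad : ∀ v : QW D.S S' K, ∀ i j : Fin 3, i ≠ j →
        (¬ ∀ q ∈ D.L v, q ∉ nbhd S' R₀' (D.L (W i)) → q ∉ D.Zb (W i) (τ i)) →
        (∀ q ∈ D.L v, q ∉ nbhd S' R₀' (D.L (W j)) → q ∉ D.Zb (W j) (τ j)) := by
      intro v i j hij h1 q hq hqn hqU
      push Not at h1
      exact hone v i j hij h1 ⟨q, hq, hqn, hqU⟩
    by_cases a0 : ∀ q ∈ D.L w, q ∉ nbhd S' R₀' (D.L (W 0)) → q ∉ D.Zb (W 0) (τ 0)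
    · by_cases b0 : ∀ q ∈ D.L w', q ∉ nbhd S' R₀' (D.L (W 0)) → q ∉ D.Zb (W 0) (τ 0)
      · exact ⟨0, a0, b0⟩
      · by_cases a1 : ∀ q ∈ D.L w, q ∉ nbhd S' R₀' (D.L (W 1)) → q ∉ D.Zb (W 1) (τ 1)
        · exact ⟨1, a1, hbad w' 0 1 (by decide) b0⟩
        · exact ⟨2, hbad w 1 2 (by decide) a1, hbad w' 0 2 (by decide) b0⟩
    · by_cases b1 : ∀ q ∈ D.L w', q ∉ nbhd S' R₀' (D.L (W 1)) → q ∉ D.Zb (W 1) (τ 1)
      · exact ⟨1, hbad w 0 1 (by decide) a0, b1⟩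
      · exact ⟨2, hbad w 0 2 (by decide) a0, hbad w' 1 2 (by decide) b1⟩
  obtain ⟨p, hpL, hpd⟩ := hp i
  -- deep points of the good half-space are on the right side of both walls
  have hside : ∀ (v : QW D.S S' K) (s : Bool), y₀ ∈ D.Zb v s →
      y₀ ∉ nbhd S' ((c * r₃ + c) + (r₃ + R₀) + (r₃ + R₁)) (D.L v) →
      (∀ q ∈ D.L v, q ∉ nbhd S' R₀' (D.L (W i)) → q ∉ D.Zb (W i) (τ i)) →
      ∀ z, z ∈ D.Zb (W i) (τ i) → z ∉ nbhd S' ρ (D.L (W i)) → z ∈ D.Zb v s := by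
    intro v s hs hnv hgood z hz hzn
    have hpv : p ∈ D.Zb v s := by
      by_contra h1
      exact hnv (nbhd_mono (by omega) _ (hc v s y₀ p r₃ (fun h' => h1 (h'.1 hs)) hpd))
    have hon : D.On v (W i) R₀ s := by
      obtain ⟨ν, hν⟩ := hR₀ v (W i)
      have h1 : ν = s := by
        have h2 := hν p hpL (fun h' => hnv (nbhd_mono (by omega) _ (mem_nbhd_of_dist gS' h' hpd)))
        by_contra h3
        have h4 : ν = !s := by
          cases hν' : ν <;> cases hs' : s <;> simp_all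
        rw [h4, mem_Zb_not] at h2
        exact h2 hpv
      rw [h1] at hν
      exact hν
    by_contra hzv
    have h1 := hρ (W i) v (!(τ i)) s
      (fun q hq hqn => (D.mem_Zb_not (W i) (τ i) q).2 (hgood q hq hqn))
      (On.mono D hon (by omega))
      ⟨z, fun h' => (D.mem_Zb_not (W i) (τ i) z).1 h' hz, hzv, hzn⟩ hpL
    exact hnv (nbhd_mono (by omega) _ (mem_nbhd_of_dist gS' h1 hpd))
  have hdeep : ∀ (v : QW D.S S' K),
      (∀ q ∈ D.L v, q ∉ nbhd S' R₀' (D.L (W i)) → q ∉ D.Zb (W i) (τ i)) →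
      ∀ z, z ∈ D.Zb (W i) (τ i) → z ∉ nbhd S' (ρ + (d + R₀') + (c * d + c)) (D.L (W i)) →
      z ∉ nbhd S' d (D.L v) := by
    intro v hgood z hz hzn hcon
    obtain ⟨q, hq, hd⟩ := hcon
    by_cases h1 : q ∈ nbhd S' R₀' (D.L (W i))
    · exact hzn (nbhd_mono (by omega) _ (mem_nbhd_of_dist gS' h1 hd))
    · have h2 := hgood q hq h1
      exact hzn (nbhd_mono (by omega) _ (hc (W i) (τ i) z q d (fun h' => h2 (h'.1 hz)) hd))
  obtain ⟨r, hr⟩ := D.exists_r S' K (ρ + (d + R₀') + (c * d + c))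
  obtain ⟨z, hz, -, hzn⟩ := hr (W i) (τ i) p hpL
  have hzρ : z ∉ nbhd S' ρ (D.L (W i)) := fun h' => hzn (nbhd_mono (by omega) _ h')
  exact ⟨z, hside w σ hσ hn hi z hz hzρ, hside w' σ' hσ' hn' hi' z hz hzρ,
    hdeep w hi z hz hzn, hdeep w' hi' z hz hzn⟩

end Sp

end Pool.Agent.QIT
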