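import Pool.Agent.H67.W4.Order
import Pool.Agent.H67.W4.Three
import Pool.Agent.H67.W2.Main2

/-!
# Half-spaces of the quasi-isometric group
-/

set_option autoImplicit false

namespace Pool.Agent.QIT

open Pool.Agent.QIS

open MulAction

/-- the data of the third main theorem -/
structure Ht (G H : Type) [Group G] [Group H] where
  D : Sp G
  S' : Set H
  hS' : S'.Finite
  gS' : Subgroup.closure S' = ⊤
  K : ℕ
  hK : 1 ≤ K
  F : QW D.S S' K

namespace Ht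

variable {G H : Type} [Group G] [Group H] (P : Ht G H)

/-- the walls of `H` -/
def w (p : H × G × Bool) : QW P.D.S P.S' P.K := P.F.tw p.1 p.2.1

/-- the half-spaces of `H` -/
def Y (p : H × G × Bool) : Set H := P.D.Zb (P.w p) p.2.2

/-- the lines of `H` -/
def Ln (p : H × G × Bool) : Set H := P.D.L (P.w p)

/-- the order on the indices -/
def le (p q : H × G × Bool) : Prop := P.D.Le (P.w p) (P.w q) p.2.2 q.2.2

/-- the complementary half-space -/
def star (p : H × G × Bool) : H × G × Bool := (p.1, p.2.1, !p.2.2)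

/-- the action on the indices -/
def act (η : H) (p : H × G × Bool) : H × G × Bool := (η * p.1, p.2.1, p.2.2)

theorem mem_Ln (p : H × G × Bool) (y : H) : y ∈ P.Ln p ↔
    ∃ x ∈ P.D.Cg, y = p.1 * P.F.f (p.2.1 * x) := Iff.rfl

theorem mem_Ln_act (η : H) (p : H × G × Bool) (y : H) :
    y ∈ P.Ln (act η p) ↔ η⁻¹ * y ∈ P.Ln p := by
  constructor
  · rintro ⟨x, hx, h⟩
    refine ⟨x, hx, ?_⟩
    have h' : y = (η * p.1) * P.F.f (p.2.1 * x) := h
    show η⁻¹ * y = p.1 * P.F.f (p.2.1 * x)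
    rw [h']; group
  · rintro ⟨x, hx, h⟩
    refine ⟨x, hx, ?_⟩
    have h' : η⁻¹ * y = p.1 * P.F.f (p.2.1 * x) := h
    show y = (η * p.1) * P.F.f (p.2.1 * x)
    rw [mul_assoc, ← h']; group

theorem mem_nbhd_act (η : H) (p : H × G × Bool) (R : ℕ) (y : H) :
    y ∈ nbhd P.S' R (P.Ln (act η p)) ↔ η⁻¹ * y ∈ nbhd P.S' R (P.Ln p) := by
  constructor
  · rintro ⟨l, hl, hd⟩
    exact ⟨η⁻¹ * l, (P.mem_Ln_act η p l).1 hl, by rw [wdist_mul_left]; exact hd⟩
  · rintro ⟨l, hl, hd⟩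
    refine ⟨η * l, ?_, ?_⟩
    · rw [mem_Ln_act, inv_mul_cancel_left]; exact hl
    · rw [← wdist_mul_left η, mul_inv_cancel_left] at hd
      exact hd

theorem mem_Y_act (η : H) (p : H × G × Bool) (y : H) : y ∈ P.Y (act η p) ↔ η⁻¹ * y ∈ P.Y p := by
  have h : y ∈ P.D.Z (P.w (act η p)) ↔ η⁻¹ * y ∈ P.D.Z (P.w p) := by
    show P.D.A (p.2.1⁻¹ * P.F.f' ((η * p.1)⁻¹ * y)) ↔ P.D.A (p.2.1⁻¹ * P.F.f' (p.1⁻¹ * (η⁻¹ * y)))
    rw [mul_inv_rev, mul_assoc]
  obtain ⟨h', k, σ⟩ := p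
  cases σ
  · exact not_congr h
  · exact h

theorem le_act (η : H) (p q : H × G × Bool) : P.le (act η p) (act η q) ↔ P.le p q := by
  constructor
  · rintro ⟨R, hR⟩
    refine ⟨R, fun y hy hy' => ?_⟩
    have e1 : η * y ∈ P.Y (act η p) := by rw [mem_Y_act, inv_mul_cancel_left]; exact hy
    have e2 : η * y ∉ P.Y (act η q) := by rw [mem_Y_act, inv_mul_cancel_left]; exact hy'
    refine (hR (η * y) e1 e2).imp (fun h => ?_) (fun h => ?_)
    · have := (P.mem_nbhd_act η p R (η * y)).1 h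
      rwa [inv_mul_cancel_left] at this
    · have := (P.mem_nbhd_act η q R (η * y)).1 h
      rwa [inv_mul_cancel_left] at this
  · rintro ⟨R, hR⟩
    refine ⟨R, fun y hy hy' => ?_⟩
    refine (hR (η⁻¹ * y) ((P.mem_Y_act η p y).1 hy) (fun h => hy' ((P.mem_Y_act η q y).2 h))).imp
      (fun h => ?_) (fun h => ?_)
    · exact (P.mem_nbhd_act η p R y).2 h
    · exact (P.mem_nbhd_act η q R y).2 h

/-- the depth from which the half-spaces are determined -/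
noncomputable def R : ℕ := (P.D.deep_corner P.gS' P.K).choose

theorem not_le {p q : H × G × Bool} {y₀ : H} (h1 : y₀ ∈ P.Y p) (h2 : y₀ ∈ P.Y q)
    (h3 : y₀ ∉ nbhd P.S' P.R (P.Ln p)) (h4 : y₀ ∉ nbhd P.S' P.R (P.Ln q)) :
    ¬ P.le p (star q) := by
  rintro ⟨d, hd⟩
  obtain ⟨y, a1, a2, a3, a4⟩ := (P.D.deep_corner P.gS' P.K).choose_spec (P.w p) (P.w q)
    p.2.2 q.2.2 y₀ h1 h2 h3 h4 d
  have h5 : y ∉ P.D.Zb (P.w (star q)) (star q).2.2 := by
    have e := P.D.mem_Zb_not (P.w (star q)) q.2.2 y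
    show y ∉ P.D.Zb (P.w (star q)) (!q.2.2)
    rw [e, not_not]
    exact a2
  rcases hd y a1 h5 with h | h
  · exact a3 h
  · exact a4 h

/-- the half-spaces that contain the identity as a deep point -/
def U₀ : Set (H × G × Bool) := {p | (1 : H) ∈ P.Y p ∧ (1 : H) ∉ nbhd P.S' P.R (P.Ln p)}

theorem exists_Ω : ∃ Ω : Set (H × G × Bool), P.U₀ ⊆ Ω ∧
    (∀ a ∈ Ω, ∀ b ∈ Ω, ¬ P.le a (star b)) ∧ (∀ a, a ∈ Ω ∨ star a ∈ Ω) ∧
      (∀ a ∈ Ω, ∀ b, P.le a b → b ∈ Ω) := by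
  refine exists_orientation P.le star ?_ ?_ ?_ ?_ _ ?_
  · intro a b c h1 h2
    exact Sp.Le.trans P.D P.gS' h1 h2
  · intro a b h
    exact Sp.Le.symm' P.D h
  · rintro ⟨h, k, σ⟩
    simp [star]
  · intro a h
    exact P.D.not_Le_self P.gS' (P.w a) a.2.2 h
  · rintro a ⟨a1, a2⟩ b ⟨b1, b2⟩
    exact P.not_le a1 b1 a2 b2

/-- an orientation that contains the half-spaces with the identity as a deep point -/
noncomputable def Ω : Set (H × G × Bool) := P.exists_Ω.choose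

theorem Ω_sub {p : H × G × Bool} (h1 : (1 : H) ∈ P.Y p)
    (h2 : (1 : H) ∉ nbhd P.S' P.R (P.Ln p)) : p ∈ P.Ω := P.exists_Ω.choose_spec.1 ⟨h1, h2⟩

theorem Ω_coh {a b : H × G × Bool} (ha : a ∈ P.Ω) (hb : b ∈ P.Ω) : ¬ P.le a (star b) :=
  P.exists_Ω.choose_spec.2.1 a ha b hb

theorem Ω_tot (a : H × G × Bool) : a ∈ P.Ω ∨ star a ∈ P.Ω := P.exists_Ω.choose_spec.2.2.1 a

theorem Ω_up {a b : H × G × Bool} (ha : a ∈ P.Ω) (h : P.le a b) : b ∈ P.Ω :=
  P.exists_Ω.choose_spec.2.2.2 a ha b h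

/-- the corrected half-spaces -/
def SS (p : H × G × Bool) : Set H := {x | act x⁻¹ p ∈ P.Ω}

theorem le_refl (p : H × G × Bool) : P.le p p := Sp.Le.refl P.D _ _

theorem star_star (p : H × G × Bool) : star (star p) = p := by
  obtain ⟨h, k, σ⟩ := p
  simp [star]

theorem SS_star (p : H × G × Bool) : P.SS (star p) = (P.SS p)ᶜ := by
  ext x
  have e : act x⁻¹ (star p) = star (act x⁻¹ p) := rfl
  constructor
  · intro h h'
    have h1 : star (act x⁻¹ p) ∈ P.Ω := h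
    have h2 : act x⁻¹ p ∈ P.Ω := h'
    refine P.Ω_coh h2 h1 ?_
    rw [star_star]
    exact P.le_refl _
  · intro h
    exact (P.Ω_tot (act x⁻¹ p)).resolve_left h

theorem SS_mono {p q : H × G × Bool} (h : P.le p q) : P.SS p ⊆ P.SS q := by
  intro x hx
  exact P.Ω_up hx ((P.le_act x⁻¹ p q).2 h)

theorem tr_SS (η : H) (p : H × G × Bool) : tr η (P.SS p) = P.SS (act η p) := by
  ext x
  show act (η⁻¹ * x)⁻¹ p ∈ P.Ω ↔ act x⁻¹ (act η p) ∈ P.Ω
  have : act (η⁻¹ * x)⁻¹ p = act x⁻¹ (act η p) := by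
    unfold act
    simp only [mul_inv_rev, inv_inv, mul_assoc]
  rw [this]

theorem mem_SS_iff {p : H × G × Bool} {x : H} (hn : x ∉ nbhd P.S' P.R (P.Ln p)) :
    x ∈ P.SS p ↔ x ∈ P.Y p := by
  have key : ∀ q : H × G × Bool, x ∉ nbhd P.S' P.R (P.Ln q) → x ∈ P.Y q → x ∈ P.SS q := by
    intro q h1 h2
    refine P.Ω_sub ?_ ?_
    · rw [mem_Y_act, inv_inv, mul_one]; exact h2
    · rw [mem_nbhd_act, inv_inv, mul_one]; exact h1
  constructor
  · intro h
    by_contra hc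
    have h1 : x ∈ P.Y (star p) := by
      show x ∈ P.D.Zb (P.w (star p)) (!p.2.2)
      rw [Sp.mem_Zb_not]
      exact hc
    have h2 := key (star p) hn h1
    rw [SS_star] at h2
    exact h2 h
  · exact key p hn

end Ht

end Pool.Agent.QIT
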