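import Pool.Agent.H67.W4.Fin1

/-!
# Local finiteness, separation, crossing
-/

set_option autoImplicit false

namespace Pool.Agent.QIT

open Pool.Agent.QIS

open MulAction

namespace Ht

variable {G H : Type} [Group G] [Group H] (P : Ht G H)

/-- change of the base point of a line -/
theorem exists_base {p : H × G × Bool} {l : H} (hl : l ∈ P.Ln p) :
    ∃ q : H × G × Bool, P.SS q = P.SS p ∧ (P.w q).f 1 = l ∧ q.2.2 = p.2.2 := by
  obtain ⟨x, hx, rfl⟩ := hl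
  obtain ⟨h, k, σ⟩ := p
  refine ⟨(h, k * x, σ), ?_, ?_, rfl⟩
  · have hZ : ∀ y, y ∈ P.D.Z (P.w (h, k * x, σ)) ↔ y ∈ P.D.Z (P.w (h, k, σ)) := by
      intro y
      show P.D.A ((k * x)⁻¹ * P.F.f' (h⁻¹ * y)) ↔ P.D.A (k⁻¹ * P.F.f' (h⁻¹ * y))
      rw [mul_inv_rev, mul_assoc, P.D.A_mul (P.D.Cg.inv_mem hx)]
    have hY : P.Y (h, k * x, σ) = P.Y (h, k, σ) := by
      ext y
      cases σ
      · exact not_congr (hZ y)
      · exact hZ y
    refine Set.Subset.antisymm (P.SS_mono ⟨0, fun y hy hy' => absurd ?_ hy'⟩)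
      (P.SS_mono ⟨0, fun y hy hy' => absurd ?_ hy'⟩)
    · show y ∈ P.Y (h, k, σ)
      rw [← hY]; exact hy
    · show y ∈ P.Y (h, k * x, σ)
      rw [hY]; exact hy
  · show h * P.F.f ((k * x) * 1) = h * P.F.f (k * x)
    rw [mul_one]

theorem near_finite (R : ℕ) : {A : Set H | ∃ p, A = P.SS p ∧
    ∃ l ∈ P.Ln p, wdist P.S' 1 l ≤ R}.Finite := by
  obtain ⟨n, hn⟩ := P.D.le_of_trace P.gS' P.K P.hK
  have hfin : (((𝒫 ({x : G | wdist P.D.S 1 x ≤ n} ×ˢ {y : H | wdist P.S' 1 y ≤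
      R + (P.K * n + P.K)})) ×ˢ (𝒫 {y : H | wdist P.S' 1 y ≤ R + n})) ×ˢ
      (Set.univ : Set Bool)).Finite :=
    (((ball_finite P.D.hS P.D.gS 1 n).prod (ball_finite P.hS' P.gS' 1 _)).finite_subsets.prod
      (ball_finite P.hS' P.gS' 1 _).finite_subsets).prod Set.finite_univ
  have hex : ∀ A ∈ {A : Set H | ∃ p, A = P.SS p ∧ ∃ l ∈ P.Ln p, wdist P.S' 1 l ≤ R},
      ∃ p, A = P.SS p ∧ wdist P.S' 1 ((P.w p).f 1) ≤ R := by
    rintro A ⟨p, rfl, l, hl, hd⟩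
    obtain ⟨q, hq, hq1, -⟩ := P.exists_base hl
    exact ⟨q, hq.symm, by rw [hq1]; exact hd⟩
  choose! pp hA hd using hex
  refine Set.Finite.of_finite_image (f := fun A =>
    (({z : G × H | wdist P.D.S 1 z.1 ≤ n ∧ z.2 = (P.w (pp A)).f z.1},
      {y : H | wdist P.S' 1 y ≤ R + n} ∩ P.D.Z (P.w (pp A))), (pp A).2.2))
    (hfin.subset ?_) ?_
  · rintro _ ⟨A, hA', rfl⟩
    refine ⟨⟨?_, Set.inter_subset_left⟩, trivial⟩
    rintro ⟨x, y⟩ ⟨h1, h2⟩
    refine ⟨h1, ?_⟩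
    have h2' : y = (P.w (pp A)).f x := h2
    have e1 := (P.w (pp A)).hf.1 1 x
    have e2 := hd A hA'
    have e3 := wdist_triangle P.gS' 1 ((P.w (pp A)).f 1) ((P.w (pp A)).f x)
    have e4 : P.K * wdist P.D.S 1 x ≤ P.K * n := Nat.mul_le_mul_left _ h1
    show wdist P.S' 1 y ≤ R + (P.K * n + P.K)
    rw [h2']
    omega
  · intro A hA1 B hB1 hAB
    simp only [Prod.mk.injEq] at hAB
    obtain ⟨⟨e1, e2⟩, e3⟩ := hAB
    have f1 : ∀ x, wdist P.D.S 1 x ≤ n → (P.w (pp A)).f x = (P.w (pp B)).f x := by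
      intro x hx
      have h1 : (x, (P.w (pp A)).f x) ∈
          {z : G × H | wdist P.D.S 1 z.1 ≤ n ∧ z.2 = (P.w (pp A)).f z.1} := ⟨hx, rfl⟩
      rw [e1] at h1
      exact h1.2
    have f2 : ∀ y, wdist P.S' 1 y ≤ R + n → (y ∈ P.D.Z (P.w (pp A)) ↔
        y ∈ P.D.Z (P.w (pp B))) := by
      intro y hy
      have : y ∈ {y : H | wdist P.S' 1 y ≤ R + n} ∩ P.D.Z (P.w (pp A)) ↔
        y ∈ {y : H | wdist P.S' 1 y ≤ R + n} ∩ P.D.Z (P.w (pp B)) := by rw [e2]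
      constructor
      · intro h; exact (this.1 ⟨hy, h⟩).2
      · intro h; exact (this.2 ⟨hy, h⟩).2
    have f3 : ∀ C ∈ {A : Set H | ∃ p, A = P.SS p ∧ ∃ l ∈ P.Ln p, wdist P.S' 1 l ≤ R},
        ∀ y, wdist P.S' ((P.w (pp C)).f 1) y ≤ n → wdist P.S' 1 y ≤ R + n := by
      intro C hC y hy
      have e5 := wdist_triangle P.gS' 1 ((P.w (pp C)).f 1) y
      have e6 := hd C hC
      omega
    have g1 : P.le (pp A) (pp B) := by
      have := hn (P.w (pp A)) (P.w (pp B)) f1 (fun y hy => f2 y (f3 A hA1 y hy)) (pp A).2.2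
      show P.D.Le (P.w (pp A)) (P.w (pp B)) (pp A).2.2 (pp B).2.2
      rwa [← e3]
    have g2 : P.le (pp B) (pp A) := by
      have := hn (P.w (pp B)) (P.w (pp A)) (fun x hx => (f1 x hx).symm)
        (fun y hy => (f2 y (f3 B hB1 y hy)).symm) (pp B).2.2
      show P.D.Le (P.w (pp B)) (P.w (pp A)) (pp B).2.2 (pp A).2.2
      rwa [e3]
    rw [hA A hA1, hA B hB1]
    exact Set.Subset.antisymm (P.SS_mono g1) (P.SS_mono g2)

theorem act_inv_act (η : H) (p : H × G × Bool) : act η (act η⁻¹ p) = p := by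
  unfold act
  simp only [mul_inv_cancel_left]

theorem near_finite' (R : ℕ) (y : H) : {A : Set H | ∃ p, A = P.SS p ∧
    ∃ l ∈ P.Ln p, wdist P.S' y l ≤ R}.Finite := by
  refine ((P.near_finite R).image (fun A => tr y A)).subset ?_
  rintro A ⟨p, rfl, l, hl, hd⟩
  refine ⟨P.SS (act y⁻¹ p), ⟨_, rfl, y⁻¹ * l, ?_, ?_⟩, ?_⟩
  · rw [mem_Ln_act, inv_inv, mul_inv_cancel_left]; exact hl
  · rw [← wdist_mul_left y, mul_one, mul_inv_cancel_left]
    exact hd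
  · show tr y (P.SS (act y⁻¹ p)) = P.SS p
    rw [P.tr_SS, act_inv_act]

theorem sep_finite (x y : H) : {A : Set H | (∃ p, A = P.SS p) ∧ ¬ (x ∈ A ↔ y ∈ A)}.Finite := by
  obtain ⟨c, hc⟩ := P.D.exists_cr P.gS' P.K
  refine (P.near_finite' (P.R + wdist P.S' x y + (c * wdist P.S' x y + c)) x).subset ?_
  rintro A ⟨⟨p, rfl⟩, hs⟩
  refine ⟨p, rfl, ?_⟩
  by_cases hn1 : x ∈ nbhd P.S' P.R (P.Ln p)
  · obtain ⟨l, hl, hd⟩ := hn1
    exact ⟨l, hl, by omega⟩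
  by_cases hn2 : y ∈ nbhd P.S' P.R (P.Ln p)
  · obtain ⟨l, hl, hd⟩ := hn2
    refine ⟨l, hl, ?_⟩
    have := wdist_triangle P.gS' x y l
    omega
  rw [P.mem_SS_iff hn1, P.mem_SS_iff hn2] at hs
  obtain ⟨l, hl, hd⟩ := hc (P.w p) p.2.2 x y _ hs le_rfl
  exact ⟨l, hl, by omega⟩

theorem base_mem (p : H × G × Bool) : (P.w p).f 1 ∈ P.Ln p :=
  ⟨1, P.D.Cg.one_mem, rfl⟩

theorem cross_finite (p : H × G × Bool) :
    {B : Set H | (∃ q, B = P.SS q) ∧ ¬ Nested (P.SS p) B}.Finite := by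
  obtain ⟨R, hR⟩ := P.D.close_of_cross P.gS' P.K
  refine (P.near_finite' R ((P.w p).f 1)).subset ?_
  rintro B ⟨⟨q, rfl⟩, hn⟩
  have key : ∀ σ σ', ¬ P.D.Le (P.w p) (P.w q) σ σ' := by
    have hN : ∀ a b : H × G × Bool, (a = p ∨ a = star p) → (b = q ∨ b = star q) →
        ¬ P.le a b := by
      intro a b ha hb hab
      have h1 := P.SS_mono hab
      refine hn ?_
      unfold Nested
      rcases ha with rfl | rfl
      · rcases hb with rfl | rfl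
        · exact Or.inl h1
        · rw [SS_star] at h1
          exact Or.inr (Or.inl h1)
      · rw [SS_star] at h1
        rcases hb with rfl | rfl
        · exact Or.inr (Or.inr (Or.inl h1))
        · rw [SS_star] at h1
          exact Or.inr (Or.inr (Or.inr h1))
    obtain ⟨h, k, τ⟩ := p
    obtain ⟨h', k', τ'⟩ := q
    intro σ σ' hle
    refine hN (h, k, σ) (h', k', σ') ?_ ?_ hle
    · cases σ <;> cases τ <;> simp [star]
    · cases σ' <;> cases τ' <;> simp [star]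
  obtain ⟨l, hl, hd⟩ := hR (P.w p) (P.w q) key (P.base_mem p)
  exact ⟨q, rfl, l, hl, hd⟩

end Ht

end Pool.Agent.QIT
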