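import Pool.Agent.H67.W4.Lft

/-!
# The order on half-spaces of walls
-/

set_option autoImplicit false

namespace Pool.Agent.QIT

open Pool.Agent.QIS

namespace Sp

variable {G : Type} [Group G] (D : Sp G)

variable {X : Type} [Group X] {S' : Set X} {K : ℕ}

/-- the half-space `σ` of `w` is contained in the half-space `σ'` of `w'`, up to points near the two
lines -/
def Le (w w' : QW D.S S' K) (σ σ' : Bool) : Prop :=
  ∃ R : ℕ, ∀ y, y ∈ D.Zb w σ → y ∉ D.Zb w' σ' → y ∈ nbhd S' R (D.L w) ∨ y ∈ nbhd S' R (D.L w')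

theorem Le.refl (w : QW D.S S' K) (σ : Bool) : D.Le w w σ σ :=
  ⟨0, fun _ h h' => absurd h h'⟩

theorem Le.trans (gS' : Subgroup.closure S' = ⊤) {w₁ w₂ w₃ : QW D.S S' K} {σ₁ σ₂ σ₃ : Bool}
    (h₁ : D.Le w₁ w₂ σ₁ σ₂) (h₂ : D.Le w₂ w₃ σ₂ σ₃) : D.Le w₁ w₃ σ₁ σ₃ := by
  obtain ⟨R₁, h₁⟩ := h₁
  obtain ⟨R₂, h₂⟩ := h₂
  obtain ⟨c, hc⟩ := D.exists_cr gS' K
  obtain ⟨r, hr⟩ := D.exists_r S' K (R₁ + R₂)
  -- points far from the middle line
  have key : ∀ y, y ∈ D.Zb w₁ σ₁ → y ∉ D.Zb w₃ σ₃ → y ∉ nbhd S' (R₁ + R₂) (D.L w₂) →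
      y ∈ nbhd S' (R₁ + R₂) (D.L w₁) ∨ y ∈ nbhd S' (R₁ + R₂) (D.L w₃) := by
    intro y hy1 hy3 hn
    by_cases hy2 : y ∈ D.Zb w₂ σ₂
    · rcases h₂ y hy2 hy3 with h | h
      · exact absurd (nbhd_mono (Nat.le_add_left _ _) _ h) hn
      · exact Or.inr (nbhd_mono (Nat.le_add_left _ _) _ h)
    · rcases h₁ y hy1 hy2 with h | h
      · exact Or.inl (nbhd_mono (Nat.le_add_right _ _) _ h)
      · exact absurd (nbhd_mono (Nat.le_add_right _ _) _ h) hn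
  refine ⟨(R₁ + R₂ + r + (R₁ + R₂)) + (c * (R₁ + R₂ + r) + c), fun y hy1 hy3 => ?_⟩
  by_cases hn : y ∈ nbhd S' (R₁ + R₂) (D.L w₂)
  · obtain ⟨p, hp, hd⟩ := hn
    obtain ⟨z, -, hz2, hz3⟩ := hr w₂ true p hp
    have hdz : wdist S' y z ≤ R₁ + R₂ + r := (wdist_triangle gS' y p z).trans (by omega)
    by_cases hz1 : z ∈ D.Zb w₁ σ₁
    · by_cases hz4 : z ∈ D.Zb w₃ σ₃
      · right
        exact nbhd_mono (by omega) _ (hc w₃ σ₃ y z _ (fun h' => hy3 (h'.2 hz4)) hdz)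
      · rcases key z hz1 hz4 hz3 with h | h
        · exact Or.inl (nbhd_mono (by omega) _ (mem_nbhd_of_dist gS' h hdz))
        · exact Or.inr (nbhd_mono (by omega) _ (mem_nbhd_of_dist gS' h hdz))
    · left
      exact nbhd_mono (by omega) _ (hc w₁ σ₁ y z _ (fun h' => hz1 (h'.1 hy1)) hdz)
  · rcases key y hy1 hy3 hn with h | h
    · exact Or.inl (nbhd_mono (by omega) _ h)
    · exact Or.inr (nbhd_mono (by omega) _ h)

theorem Le.symm' {w w' : QW D.S S' K} {σ σ' : Bool} (h : D.Le w w' σ σ') :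
    D.Le w' w (!σ') (!σ) := by
  obtain ⟨R, h⟩ := h
  refine ⟨R, fun y hy hy' => ?_⟩
  rw [mem_Zb_not] at hy hy'
  exact (h y (not_not.1 hy') hy).symm

theorem not_Le_self (gS' : Subgroup.closure S' = ⊤) (w : QW D.S S' K) (σ : Bool) :
    ¬ D.Le w w σ (!σ) := by
  rintro ⟨R, h⟩
  obtain ⟨r, hr⟩ := D.exists_r S' K R
  obtain ⟨z, hz1, -, hz3⟩ := hr w σ (w.f 1) (D.f_mem_L w D.Cg.one_mem)
  rcases h z hz1 (fun h' => (D.mem_Zb_not w σ z).1 h' hz1) with h' | h'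
  · exact hz3 h'
  · exact hz3 h'

/-- walls whose half-spaces are not nested are close -/
theorem close_of_cross (gS' : Subgroup.closure S' = ⊤) (K : ℕ) : ∃ R : ℕ,
    ∀ w w' : QW D.S S' K, (∀ σ σ', ¬ D.Le w w' σ σ') → D.L w ⊆ nbhd S' R (D.L w') := by
  obtain ⟨R₀, hR₀⟩ := D.exists_R gS' K
  obtain ⟨ρ, R, hR⟩ := D.near_of_corner gS' K R₀
  refine ⟨R, fun w w' h => ?_⟩
  obtain ⟨τ, hτ⟩ := hR₀ w w'
  obtain ⟨τ', hτ'⟩ := hR₀ w' w
  refine hR w w' τ τ' hτ hτ' ?_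
  by_contra hno
  refine h (!τ) τ' ⟨ρ, fun y hy hy' => ?_⟩
  by_contra hn
  exact hno ⟨y, (D.mem_Zb_not w τ y).1 hy, hy', fun h' => hn (Or.inl h')⟩

/-- walls with the same trace on a large ball are close -/
theorem near_of_trace (gS' : Subgroup.closure S' = ⊤) (K : ℕ) (hK : 1 ≤ K) : ∃ R n : ℕ,
    ∀ w w' : QW D.S S' K, (∀ x, wdist D.S 1 x ≤ n → w.f x = w'.f x) →
    D.L w ⊆ nbhd S' R (D.L w') := by
  obtain ⟨T, n, hT⟩ := D.lft (Kc K) (hK.trans (QW.le_Kc K))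
  refine ⟨K * D.Dc + K + (K * T + K + K), n, fun w w' h => ?_⟩
  have h1 := hT (QW.comp D.gS w w') (by
    intro x hx
    show wdist D.S (w.f' (w'.f x)) x ≤ Kc K
    rw [← h x hx]
    exact (w.h2 x).trans (QW.le_Kc K))
  rintro y ⟨z, hz, rfl⟩
  obtain ⟨s, hs⟩ := D.hcov z hz
  obtain ⟨l, ⟨x, hx, rfl⟩, hd⟩ := h1 s
  refine ⟨w'.f x, ⟨x, hx, rfl⟩, ?_⟩
  have hd' : wdist D.S (D.c ^ s) (w.f' (w'.f x)) ≤ T := hd
  have e1 := w.hf.1 z (D.c ^ s)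
  have e2 : K * wdist D.S z (D.c ^ s) ≤ K * D.Dc := Nat.mul_le_mul_left _ hs
  have e3 := w.hf.1 (D.c ^ s) (w.f' (w'.f x))
  have e4 : K * wdist D.S (D.c ^ s) (w.f' (w'.f x)) ≤ K * T := Nat.mul_le_mul_left _ hd'
  have e5 := w.h1 (w'.f x)
  have e6 := wdist_triangle gS' (w.f z) (w.f (D.c ^ s)) (w'.f x)
  have e7 := wdist_triangle gS' (w.f (D.c ^ s)) (w.f (w.f' (w'.f x))) (w'.f x)
  omega

/-- the traces on a large ball determine a half-space up to points near the lines -/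
theorem le_of_trace (gS' : Subgroup.closure S' = ⊤) (K : ℕ) (hK : 1 ≤ K) : ∃ n : ℕ,
    ∀ w w' : QW D.S S' K, (∀ x, wdist D.S 1 x ≤ n → w.f x = w'.f x) →
    (∀ y, wdist S' (w.f 1) y ≤ n → (y ∈ D.Z w ↔ y ∈ D.Z w')) → ∀ σ, D.Le w w' σ σ := by
  obtain ⟨R₁, n₁, h₁⟩ := D.near_of_trace gS' K hK
  obtain ⟨c, hc⟩ := D.exists_cr gS' K
  obtain ⟨ρ, hρ⟩ := D.exists_ρ gS' K (c + R₁)
  refine ⟨max n₁ ρ, fun w w' hf hZ σ => ⟨ρ, fun y hy hy' => ?_⟩⟩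
  have hnear : D.L w' ⊆ nbhd S' R₁ (D.L w) :=
    h₁ w' w fun x hx => (hf x (hx.trans (le_max_left _ _))).symm
  by_contra hn
  obtain ⟨m, ⟨hm1, hm2⟩, hm3⟩ := hρ w (D.Zb w σ ∩ (D.Zb w' σ)ᶜ) (by
    intro y hy y' hy'
    have e0 : (c + R₁) * wdist S' y y' = c * wdist S' y y' + R₁ * wdist S' y y' := by ring
    have e1 := Nat.zero_le (R₁ * wdist S' y y')
    by_cases h1 : y' ∈ D.Zb w σ
    · have h2 : y' ∈ D.Zb w' σ := by
        by_contra h3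
        exact hy' ⟨h1, h3⟩
      obtain ⟨l, hl, hd⟩ := hc w' σ y y' _ (fun h' => hy.2 (h'.2 h2)) le_rfl
      exact nbhd_mono (by rw [e0]; omega) _ (mem_nbhd_of_dist gS' (hnear hl) hd)
    · exact nbhd_mono (by rw [e0]; omega) _ (hc w σ y y' _ (fun h' => h1 (h'.1 hy.1)) le_rfl))
    ⟨y, ⟨hy, hy'⟩, fun h' => hn (Or.inl h')⟩ (w.f 1) (D.f_mem_L w D.Cg.one_mem)
  have h2 := hZ m (hm3.trans (le_max_right _ _))
  cases σ
  · exact hm2 (fun h3 => hm1 (h2.2 h3))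
  · exact hm2 (h2.1 hm1)

end Sp

/-- orientations exist -/
theorem exists_orientation {P : Type} (le : P → P → Prop) (star : P → P)
    (htrans : ∀ a b c, le a b → le b c → le a c)
    (hstar : ∀ a b, le a b → le (star b) (star a)) (hss : ∀ a, star (star a) = a)
    (hno : ∀ a, ¬ le a (star a)) (U₀ : Set P) (hU₀ : ∀ a ∈ U₀, ∀ b ∈ U₀, ¬ le a (star b)) :
    ∃ Ω : Set P, U₀ ⊆ Ω ∧ (∀ a ∈ Ω, ∀ b ∈ Ω, ¬ le a (star b)) ∧ (∀ a, a ∈ Ω ∨ star a ∈ Ω) ∧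
      (∀ a ∈ Ω, ∀ b, le a b → b ∈ Ω) := by
  obtain ⟨Ω, hsub, hmax⟩ := zorn_subset_nonempty
    {U : Set P | ∀ a ∈ U, ∀ b ∈ U, ¬ le a (star b)} (by
      intro C hC hchain hne
      refine ⟨⋃₀ C, ?_, fun s hs => Set.subset_sUnion_of_mem hs⟩
      rintro a ⟨s, hs, has⟩ b ⟨t, ht, hbt⟩
      rcases hchain.total hs ht with h | h
      · exact hC ht a (h has) b hbt
      · exact hC hs a has b (h hbt)) U₀ hU₀
  have hcoh : ∀ a ∈ Ω, ∀ b ∈ Ω, ¬ le a (star b) := hmax.prop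
  -- an element outside is blocked
  have hblock : ∀ a, a ∉ Ω → ∃ x ∈ Ω, le x (star a) := by
    intro a ha
    by_contra hcon
    push Not at hcon
    have h1 : insert a Ω ∈ {U : Set P | ∀ a ∈ U, ∀ b ∈ U, ¬ le a (star b)} := by
      intro x hx y hy hle
      rcases hx with rfl | hx
      · rcases hy with rfl | hy
        · exact hno _ hle
        · have h2 := hstar _ _ hle
          rw [hss] at h2
          exact hcon y hy h2
      · rcases hy with rfl | hy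
        · exact hcon x hx hle
        · exact hcoh x hx y hy hle
    have h2 := hmax.le_of_ge h1 (Set.subset_insert a Ω)
    exact ha (h2 (Set.mem_insert a Ω))
  have hcomp : ∀ a, a ∈ Ω ∨ star a ∈ Ω := by
    intro a
    by_contra hcon
    push Not at hcon
    obtain ⟨x, hx, hx'⟩ := hblock a hcon.1
    obtain ⟨y, hy, hy'⟩ := hblock (star a) hcon.2
    rw [hss] at hy'
    exact hcoh x hx y hy (htrans _ _ _ hx' (hstar _ _ hy'))
  refine ⟨Ω, hsub, hcoh, hcomp, fun a ha b hab => ?_⟩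
  rcases hcomp b with h | h
  · exact h
  · refine absurd ?_ (hcoh a ha (star b) h)
    rw [hss]
    exact hab

end Pool.Agent.QIT
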